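import Pool.Agent.P.MP_3c2f8c_gt.E6.Defs

/-! E6-Lie: general facts on Lie algebras given by structure constants. -/

namespace Pool.Agent.P.MP_3c2f8c_gt.E6

open Matrix

variable {ι : Type} [Fintype ι] [DecidableEq ι] {R S : Type} [CommRing R] [CommRing S]
  {β β' β'' : Tens ι R}

/-- `ad` as a linear map. -/
def adL (β : Tens ι R) : (ι → R) →ₗ[R] Matrix ι ι R where
  toFun := adM β
  map_add' x y := by
    ext k j
    simp [adM, add_mul, Finset.sum_add_distrib]
  map_smul' c x := by
    ext k j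
    simp [adM, Finset.mul_sum, mul_assoc]

omit [DecidableEq ι] in
theorem adL_apply (x : ι → R) : adL β x = adM β x := rfl

/-- The bracket as a bilinear map. -/
def brL (β : Tens ι R) : (ι → R) →ₗ[R] (ι → R) →ₗ[R] (ι → R) :=
  (Matrix.toLin' (R := R) (m := ι) (n := ι)).toLinearMap ∘ₗ adL β

theorem brL_apply (x y : ι → R) : brL β x y = br β x y := rfl

/-- The Killing form as a bilinear map. -/
def kilL (β : Tens ι R) : (ι → R) →ₗ[R] (ι → R) →ₗ[R] R :=
  LinearMap.mk₂ R (kil β)
    (fun x x' y => by rw [kil, kil, kil, ← adL_apply, map_add, Matrix.add_mul, trace_add]; rfl)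
    (fun c x y => by rw [kil, kil, ← adL_apply, map_smul, Matrix.smul_mul, trace_smul]; rfl)
    (fun x y y' => by
      rw [kil, kil, kil, ← adL_apply (y + y'), map_add, Matrix.mul_add, trace_add]; rfl)
    (fun c x y => by
      rw [kil, kil, ← adL_apply (c • y), map_smul, Matrix.mul_smul, trace_smul]; rfl)

omit [DecidableEq ι] in
theorem kilL_apply (x y : ι → R) : kilL β x y = kil β x y := rfl

/-- The Killing form is non-degenerate. -/
def KilND (β : Tens ι R) : Prop := ∀ x, (∀ y, kil β x y = 0) → x = 0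

/-- `D` is a derivation. -/
def IsDer (β : Tens ι R) (D : Matrix ι ι R) : Prop :=
  ∀ x y, D *ᵥ br β x y = br β (D *ᵥ x) y + br β x (D *ᵥ y)

/-- An element with property `P`, if there is one. -/
noncomputable def pick {G : Type} [One G] (P : G → Prop) : G :=
  open Classical in if h : ∃ g, P g then h.choose else 1

theorem pick_spec {G : Type} [One G] {P : G → Prop} (h : ∃ g, P g) : P (pick P) := by
  rw [pick, dif_pos h]
  exact h.choose_spec

/-- The automorphism `exp (ad x)` for nilpotent `ad x`. -/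
noncomputable def ex [Algebra ℚ R] (β : Tens ι R) (x : ι → R) : AutL β :=
  pick fun u => u.1.1 = IsNilpotent.exp (adM β x)

/-- Change of ring for invertible matrices. -/
abbrev gmap (φ : R →+* S) : GL ι R →* GL ι S := GeneralLinearGroup.map φ

theorem gmap_val (φ : R →+* S) (g : GL ι R) : (gmap φ g).1 = g.1.map φ := rfl

omit [DecidableEq ι] in
theorem adM_bc (φ : R →+* S) (x : ι → R) : adM (bc φ β) (φ ∘ x) = (adM β x).map φ := by
  ext k j
  simp [adM, bc]

theorem isoL_iff_adM {g : GL ι R} :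
    IsoL β β' g ↔ ∀ x, g.1 * adM β x = adM β' (g.1 *ᵥ x) * g.1 := by
  refine forall_congr' fun x => ⟨fun h => ?_, fun h y => ?_⟩
  · refine Matrix.toLin'.injective (LinearMap.ext fun y => ?_)
    simpa only [toLin'_apply, ← mulVec_mulVec, br] using h y
  · rw [br, br, mulVec_mulVec, mulVec_mulVec, h]

theorem isoL_iff_single {g : GL ι R} : IsoL β β' g ↔
    ∀ i, g.1 * adM β (Pi.single i 1) = adM β' (g.1 *ᵥ Pi.single i 1) * g.1 := by
  rw [isoL_iff_adM]
  refine ⟨fun h i => h _, fun h x => ?_⟩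
  have e : x = ∑ i, x i • (Pi.single i 1 : ι → R) := by
    funext j
    simp [Finset.sum_apply, Pi.single_apply]
  rw [e, mulVec_sum, ← adL_apply, ← adL_apply, map_sum, map_sum, Finset.mul_sum, Finset.sum_mul]
  refine Finset.sum_congr rfl fun i _ => ?_
  rw [mulVec_smul, map_smul, map_smul, Matrix.mul_smul, Matrix.smul_mul, adL_apply, adL_apply, h]

theorem IsoL.map (φ : R →+* S) {g : GL ι R} (h : IsoL β β' g) :
    IsoL (bc φ β) (bc φ β') (gmap φ g) := by
  rw [isoL_iff_single] at h ⊢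
  intro i
  have e : (Pi.single i 1 : ι → S) = φ ∘ (Pi.single i 1 : ι → R) := by
    funext j
    by_cases hj : j = i <;> simp [hj]
  have e' : (gmap φ g).1 *ᵥ (φ ∘ (Pi.single i 1 : ι → R)) = φ ∘ (g.1 *ᵥ Pi.single i 1) := by
    funext j
    rw [gmap_val, Function.comp_apply, RingHom.map_mulVec]
  rw [e, e', adM_bc, adM_bc, gmap_val, ← Matrix.map_mul, ← Matrix.map_mul, h]

theorem IsoL.mul {g h : GL ι R} (hg : IsoL β' β'' g) (hh : IsoL β β' h) : IsoL β β'' (g * h) := by
  intro x y
  rw [Units.val_mul, ← mulVec_mulVec, ← mulVec_mulVec, ← mulVec_mulVec, hh, hg]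

theorem IsoL.inv {g : GL ι R} (hg : IsoL β β' g) : IsoL β' β g⁻¹ := by
  intro x y
  have e : ∀ x, g.1 *ᵥ ((g⁻¹).1 *ᵥ x) = x := fun x => by
    rw [mulVec_mulVec, ← Units.val_mul, mul_inv_cancel, Units.val_one, one_mulVec]
  have e' : ∀ x, (g⁻¹).1 *ᵥ (g.1 *ᵥ x) = x := fun x => by
    rw [mulVec_mulVec, ← Units.val_mul, inv_mul_cancel, Units.val_one, one_mulVec]
  rw [← e' (br β ((g⁻¹).1 *ᵥ x) ((g⁻¹).1 *ᵥ y)), hg, e, e]

/-- Change of ring for automorphisms. -/
def amapL (φ : R →+* S) (β : Tens ι R) : AutL β →* AutL (bc φ β) :=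
  ((gmap φ).comp (AutL β).subtype).codRestrict _ fun g => IsoL.map φ g.2

theorem amapL_val (φ : R →+* S) (g : AutL β) : (amapL φ β g).1 = gmap φ g.1 := rfl

/-- Transport of automorphisms along an isomorphism. -/
def trL (f : GL ι R) (hf : IsoL β β' f) : AutL β →* AutL β' :=
  ((MulAut.conj f).toMonoidHom.comp (AutL β).subtype).codRestrict _ fun g =>
    (hf.mul g.2).mul hf.inv

theorem trL_val (f : GL ι R) (hf : IsoL β β' f) (g : AutL β) : (trL f hf g).1 = f * g.1 * f⁻¹ := rfl

end Pool.Agent.P.MP_3c2f8c_gt.E6
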