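import Pool.Agent.P.MP_3c2f8c_gt.E6.Defs
import Pool.Agent.P.MP_3c2f8c_gt.An.Defs

/-!
Definitions for the analytic part in type `E₆` (any real Lie algebra with a Cartan involution).
-/

namespace Pool.Agent.P.MP_3c2f8c_gt.E6

open Matrix

variable {ι : Type} [Fintype ι] [DecidableEq ι] {β : Tens ι ℝ}

/-- The entries of `g` are bounded by `R`. -/
def Bd (R : ℝ) (g : AutL β) : Prop := ∀ i j, |g.1.1 i j| ≤ R

/-- `G` acts on `AutL β` through the injective map `ρ` and on `Z`; the action on the product is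
proper and cocompact. -/
structure NiceL (G : Type) [Group G] (Z : Type) [MulAction G Z] (ρ : G →* AutL β) : Prop where
  inj : Function.Injective ρ
  proper : ∀ (z z' : Z) (R : ℝ), {g : G | g • z = z' ∧ Bd R (ρ g)}.Finite
  cocpt : ∃ (R : ℝ) (s : Finset Z), ∀ (x : AutL β) (z : Z), ∃ g : G,
    Bd R (ρ g * x) ∧ g • z ∈ s

/-- `γ` and `γ'` are matched: their centralisers are isomorphic, compatibly with an element of
`AutL β` and an automorphism of `(Z, κ)`. -/
def MatchedL {G G' Z : Type} [Group G] [Group G'] [MulAction G Z] [MulAction G' Z]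
    (ρ : G →* AutL β) (ρ' : G' →* AutL β) (κ : Z → Z → ℕ) (γ : G) (γ' : G') : Prop :=
  ∃ (τ : Subgroup.centralizer {γ} ≃* Subgroup.centralizer {γ'}) (g : AutL β) (Ψ : Z ≃ Z),
    (∀ t : Subgroup.centralizer {γ}, (t : G) = γ → (τ t : G') = γ') ∧
    (∀ t : Subgroup.centralizer {γ}, ρ' (τ t) * g = g * ρ t) ∧
    (∀ (t : Subgroup.centralizer {γ}) (z : Z), Ψ ((t : G) • z) = (τ t : G') • Ψ z) ∧
    ∀ z z', κ (Ψ z) (Ψ z') = κ z z'

/-- The elements of `G` that contribute to the traces inject into the classes of `G'`. -/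
def TransferL {G G' Z : Type} [Group G] [Group G'] [MulAction G Z] [MulAction G' Z]
    (ρ : G →* AutL β) (ρ' : G' →* AutL β) (κ : Z → Z → ℕ) : Prop :=
  ∃ (Reg : G → Prop) (φ : G → G'),
    (∀ (m : ℕ) (γ : G) (z : Z), Chain κ (m + 1) z (γ • z) → Reg γ) ∧
    (∀ γ, Reg γ → MatchedL ρ ρ' κ γ (φ γ)) ∧
    ∀ γ₁ γ₂, Reg γ₁ → Reg γ₂ → IsConj (φ γ₁) (φ γ₂) → IsConj γ₁ γ₂

end Pool.Agent.P.MP_3c2f8c_gt.E6
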