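import Pool.Agent.P.MP_3c2f8c_gt.E6.Lie
import Pool.Agent.P.MP_3c2f8c_gt.Lo.Top

/-! E6-Lie1: brackets, Killing form, derivations, exponentials of nilpotent elements. -/

namespace Pool.Agent.P.MP_3c2f8c_gt.E6

open Matrix

variable {ι : Type} [Fintype ι] [DecidableEq ι] {R S : Type} [CommRing R] [CommRing S]
  {β β' : Tens ι R}

namespace Lie1Aux

theorem br_add_left (x y z : ι → R) : br β (x + y) z = br β x z + br β y z := by
  simp only [← brL_apply, map_add, LinearMap.add_apply]

theorem br_add_right (x y z : ι → R) : br β x (y + z) = br β x y + br β x z := by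
  simp only [← brL_apply, map_add]

theorem br_smul_left (c : R) (x z : ι → R) : br β (c • x) z = c • br β x z := by
  simp only [← brL_apply, map_smul, LinearMap.smul_apply]

theorem br_smul_right (c : R) (x z : ι → R) : br β x (c • z) = c • br β x z := by
  simp only [← brL_apply, map_smul]

theorem br_zero_left (z : ι → R) : br β 0 z = 0 := by
  simp only [← brL_apply, map_zero, LinearMap.zero_apply]

theorem br_zero_right (z : ι → R) : br β z 0 = 0 := by
  simp only [← brL_apply, map_zero]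

theorem br_single (i j k : ι) : br β (Pi.single i 1) (Pi.single j 1) k = β i j k := by
  simp [br, adM, Pi.single_apply]

theorem ind {P : (ι → R) → Prop} (h0 : P 0) (ha : ∀ x y, P x → P y → P (x + y))
    (hs : ∀ (c : R) x, P x → P (c • x)) (h1 : ∀ i, P (Pi.single i 1)) (x : ι → R) : P x := by
  have e : x = ∑ i, x i • (Pi.single i 1 : ι → R) := by
    funext j
    simp [Finset.sum_apply, Pi.single_apply]
  rw [e]
  exact Finset.sum_induction _ P ha h0 fun i _ => hs _ _ (h1 i)

omit [Fintype ι] in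
theorem single_eq (φ : R →+* S) (i : ι) :
    (Pi.single i 1 : ι → S) = φ ∘ (Pi.single i 1 : ι → R) := by
  funext j
  by_cases hj : j = i <;> simp [hj]

omit [Fintype ι] [DecidableEq ι] in
theorem comp_add (φ : R →+* S) (x y : ι → R) : φ ∘ (x + y) = φ ∘ x + φ ∘ y :=
  funext fun _ => map_add φ _ _

omit [Fintype ι] [DecidableEq ι] in
theorem comp_inj {φ : R →+* S} (hφ : Function.Injective φ) {x y : ι → R} (h : φ ∘ x = φ ∘ y) :
    x = y := funext fun i => hφ (congrFun h i)

theorem gmap_mulVec (φ : R →+* S) (g : GL ι R) (x : ι → R) :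
    (gmap φ g).1 *ᵥ (φ ∘ x) = φ ∘ (g.1 *ᵥ x) := by
  funext j
  rw [gmap_val, Function.comp_apply, RingHom.map_mulVec]

theorem surj (g : GL ι R) (y : ι → R) : ∃ x, g.1 *ᵥ x = y :=
  ⟨(g⁻¹).1 *ᵥ y, by rw [mulVec_mulVec, ← Units.val_mul, mul_inv_cancel, Units.val_one, one_mulVec]⟩

theorem adM_conj {g : GL ι R} (hg : IsoL β β' g) (x : ι → R) :
    adM β' (g.1 *ᵥ x) = g.1 * adM β x * (g⁻¹).1 := by
  rw [isoL_iff_adM.1 hg x, Matrix.mul_assoc, ← Units.val_mul, mul_inv_cancel, Units.val_one,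
    Matrix.mul_one]

theorem mat_ext {A B : Matrix ι ι R} (h : ∀ x, A *ᵥ x = B *ᵥ x) : A = B :=
  Matrix.toLin'.injective (LinearMap.ext fun y => by simpa only [toLin'_apply] using h y)

theorem der_adM {D : Matrix ι ι R} (hD : IsDer β D) (y : ι → R) :
    adM β (D *ᵥ y) = D * adM β y - adM β y * D := by
  refine mat_ext fun z => ?_
  rw [sub_mulVec, ← mulVec_mulVec, ← mulVec_mulVec]
  exact eq_sub_of_add_eq (hD y z).symm

theorem vecMul_kil (x : ι → R) (j : ι) :
    (x ᵥ* Matrix.of fun i j => kil β (Pi.single i 1) (Pi.single j 1)) j =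
      kil β x (Pi.single j 1) := by
  refine ind (P := fun x => (x ᵥ* Matrix.of fun i j => kil β (Pi.single i 1) (Pi.single j 1)) j =
      kil β x (Pi.single j 1)) ?_ ?_ ?_ ?_ x
  · simp [← kilL_apply]
  · intro x y hx hy
    rw [add_vecMul, Pi.add_apply, hx, hy]
    simp only [← kilL_apply, map_add, LinearMap.add_apply]
  · intro c x hx
    rw [smul_vecMul, Pi.smul_apply, hx]
    simp only [← kilL_apply, map_smul, LinearMap.smul_apply]
  · intro i
    simp

theorem lin_zero (f : (ι → R) →ₗ[R] R) (h : ∀ j, f (Pi.single j 1) = 0) (y : ι → R) : f y = 0 := by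
  refine ind (P := fun y => f y = 0) (map_zero f) ?_ ?_ h y
  · intro x y hx hy
    rw [map_add, hx, hy, add_zero]
  · intro c x hx
    rw [map_smul, hx, smul_zero]

theorem aut_ext {g h : AutL β} (e : g.1.1 = h.1.1) : g = h := Subtype.ext (Units.ext e)

open TensorProduct in
theorem exp_bil {B : Type} [AddCommGroup B] [Module R B] [Module ℚ B] (b : B →ₗ[R] B →ₗ[R] B)
    (D : Module.End R B) (hD : ∀ x y, D (b x y) = b x (D y) + b (D x) y) (hn : IsNilpotent D)
    (x y : B) : IsNilpotent.exp D (b x y) = b (IsNilpotent.exp D x) (IsNilpotent.exp D y) := by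
  let DL : Module.End R (B ⊗[R] B) := D.lTensor B
  let DR : Module.End R (B ⊗[R] B) := D.rTensor B
  have hL : IsNilpotent DL := hn.map <| Module.End.lTensorAlgHom R B B
  have hR : IsNilpotent DR := hn.map <| Module.End.rTensorAlgHom R B B
  have hc : Commute DL DR := TensorProduct.ext' fun _ _ => rfl
  let m : B ⊗[R] B →ₗ[R] B := TensorProduct.lift b
  have h1 : IsNilpotent.exp D ∘ₗ m = m ∘ₗ IsNilpotent.exp (DL + DR) :=
    Module.End.commute_exp_left_of_commute (hc.isNilpotent_add hL hR) hn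
      (TensorProduct.ext' fun u v => by simp [DL, DR, m, hD])
  have h2 : IsNilpotent.exp DL = (IsNilpotent.exp D).lTensor B :=
    (hn.map_exp (Module.End.lTensorAlgHom R B B)).symm
  have h3 : IsNilpotent.exp DR = (IsNilpotent.exp D).rTensor B :=
    (hn.map_exp (Module.End.rTensorAlgHom R B B)).symm
  have h4 := LinearMap.congr_fun h1 (x ⊗ₜ[R] y)
  rw [IsNilpotent.exp_add_of_commute hc hL hR, h2, h3] at h4
  exact h4

theorem exp_der [Algebra ℚ R] {D : Matrix ι ι R} (hD : IsDer β D) (hn : IsNilpotent D)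
    (x y : ι → R) : IsNilpotent.exp D *ᵥ br β x y =
      br β (IsNilpotent.exp D *ᵥ x) (IsNilpotent.exp D *ᵥ y) := by
  have he : ∀ z, IsNilpotent.exp D *ᵥ z = IsNilpotent.exp (Matrix.toLinAlgEquiv' D) z := fun z => by
    rw [← hn.map_exp (Matrix.toLinAlgEquiv' (R := R) (n := ι))]
    rfl
  rw [he, he, he]
  exact exp_bil (brL β) _ (fun u v => (hD u v).trans (add_comm _ _))
    (hn.map (Matrix.toLinAlgEquiv' (R := R) (n := ι))) x y

end Lie1Aux

open Lie1Aux

theorem IsLie.anti (h : IsLie β) (x y : ι → R) : br β x y = -br β y x := by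
  have e := h.1 (x + y)
  rw [br_add_left, br_add_right, br_add_right, h.1, h.1, zero_add, add_zero] at e
  exact eq_neg_of_add_eq_zero_left e

theorem IsLie.adM_br (h : IsLie β) (x y : ι → R) :
    adM β (br β x y) = adM β x * adM β y - adM β y * adM β x := der_adM (h.2 x) y

theorem br_bc (φ : R →+* S) (x y : ι → R) : br (bc φ β) (φ ∘ x) (φ ∘ y) = φ ∘ br β x y := by
  funext k
  rw [br, br, adM_bc, Function.comp_apply, RingHom.map_mulVec]

theorem kil_bc (φ : R →+* S) (x y : ι → R) : kil (bc φ β) (φ ∘ x) (φ ∘ y) = φ (kil β x y) := by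
  rw [kil, kil, adM_bc, adM_bc, ← Matrix.map_mul, AddMonoidHom.map_trace]

theorem IsLie.bc (h : IsLie β) (φ : R →+* S) : IsLie (bc φ β) := by
  refine ⟨fun x => funext fun k => ?_, fun x y z => ?_⟩
  · have e : br (E6.bc φ β) x x k = ∑ p : ι × ι, x p.1 * φ (β p.1 p.2 k) * x p.2 := by
      rw [Fintype.sum_prod_type_right]
      simp [br, adM, E6.bc, mulVec, dotProduct, Finset.sum_mul]
    rw [e]
    refine Finset.sum_ninvolution Prod.swap (fun p => ?_) (fun p hp hs => hp ?_)
      (fun p => Finset.mem_univ _) fun p => rfl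
    · have e1 : β p.1 p.2 k = -β p.2 p.1 k := by
        rw [← br_single (β := β), h.anti, Pi.neg_apply, br_single]
      rw [e1, map_neg, Prod.fst_swap, Prod.snd_swap]
      ring
    · have e1 : p.2 = p.1 := congrArg Prod.fst hs
      rw [e1, ← br_single (β := β), h.1, Pi.zero_apply, map_zero, mul_zero, zero_mul]
  · induction x using ind with
    | h0 => simp [br_zero_left, br_zero_right]
    | ha x x' h1 h2 =>
      simp only [br_add_left, br_add_right, h1, h2]
      abel
    | hs c x h1 => simp only [br_smul_left, br_smul_right, h1, smul_add]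
    | h1 i =>
      induction y using ind with
      | h0 => simp [br_zero_left, br_zero_right]
      | ha x x' h1 h2 =>
        simp only [br_add_left, br_add_right, h1, h2]
        abel
      | hs c x h1 => simp only [br_smul_left, br_smul_right, h1, smul_add]
      | h1 j =>
        induction z using ind with
        | h0 => simp [br_zero_right]
        | ha x x' h1 h2 =>
          simp only [br_add_right, h1, h2]
          abel
        | hs c x h1 => simp only [br_smul_right, h1, smul_add]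
        | h1 k =>
          simp only [single_eq φ, br_bc]
          rw [h.2, comp_add]

theorem IsLie.of_bc {φ : R →+* S} (hφ : Function.Injective φ) (h : IsLie (E6.bc φ β)) :
    IsLie β := by
  refine ⟨fun x => comp_inj hφ ?_, fun x y z => comp_inj hφ ?_⟩
  · rw [← br_bc, h.1]
    exact funext fun _ => (map_zero φ).symm
  · simp only [comp_add, ← br_bc]
    exact h.2 _ _ _

theorem IsoL.isLie {g : GL ι R} (hg : IsoL β β' g) (h : IsLie β) : IsLie β' := by
  refine ⟨fun x => ?_, fun x y z => ?_⟩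
  · obtain ⟨x, rfl⟩ := surj g x
    rw [← hg, h.1, mulVec_zero]
  · obtain ⟨x, rfl⟩ := surj g x
    obtain ⟨y, rfl⟩ := surj g y
    obtain ⟨z, rfl⟩ := surj g z
    simp only [← hg _ _]
    rw [h.2, mulVec_add]

theorem IsoL.of_map {φ : R →+* S} (hφ : Function.Injective φ) {g : GL ι R}
    (h : IsoL (bc φ β) (bc φ β') (gmap φ g)) : IsoL β β' g := by
  intro x y
  refine comp_inj hφ ?_
  rw [← gmap_mulVec, ← br_bc, h, gmap_mulVec, gmap_mulVec, br_bc]

theorem IsoL.kil {g : GL ι R} (hg : IsoL β β' g) (x y : ι → R) :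
    kil β' (g.1 *ᵥ x) (g.1 *ᵥ y) = kil β x y := by
  rw [E6.kil, E6.kil, adM_conj hg, adM_conj hg]
  have e : g.1 * adM β x * (g⁻¹).1 * (g.1 * adM β y * (g⁻¹).1) =
      g.1 * (adM β x * adM β y) * (g⁻¹).1 := by
    simp only [Matrix.mul_assoc]
    rw [← Matrix.mul_assoc (g⁻¹).1, ← Units.val_mul, inv_mul_cancel, Units.val_one,
      Matrix.one_mul]
  rw [e, trace_mul_cycle, ← Units.val_mul, inv_mul_cancel, Units.val_one, Matrix.one_mul]

theorem kil_comm (x y : ι → R) : kil β x y = kil β y x := trace_mul_comm _ _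

theorem IsLie.kil_br (h : IsLie β) (x y z : ι → R) :
    kil β (br β x y) z = kil β x (br β y z) := by
  rw [E6.kil, E6.kil, h.adM_br, h.adM_br, Matrix.sub_mul, Matrix.mul_sub, trace_sub, trace_sub,
    Matrix.mul_assoc, Matrix.mul_assoc, trace_mul_comm (adM β y) (adM β x * adM β z),
    Matrix.mul_assoc]

theorem IsoL.kilND {g : GL ι R} (hg : IsoL β β' g) (h : KilND β) : KilND β' := by
  intro x hx
  obtain ⟨x, rfl⟩ := surj g x
  rw [h x fun y => by rw [← hg.kil, hx], mulVec_zero]

theorem IsLie.isDer (h : IsLie β) (x : ι → R) : IsDer β (adM β x) := h.2 x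

theorem KilND.adM_injective (h : KilND β) : Function.Injective (adM β) := by
  intro x y e
  refine sub_eq_zero.1 (h _ fun z => ?_)
  rw [kil, ← adL_apply (x - y), map_sub, adL_apply, adL_apply, e, sub_self, Matrix.zero_mul,
    trace_zero]

section Field

variable {E F : Type} [Field E] [Field F] {γ : Tens ι E}

theorem kilND_iff_det : KilND γ ↔
    (Matrix.of fun i j => kil γ (Pi.single i 1) (Pi.single j 1)).det ≠ 0 := by
  rw [Ne, ← Matrix.exists_vecMul_eq_zero_iff]
  constructor
  · rintro h ⟨x, hx, e⟩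
    refine hx (h x (lin_zero (kilL γ x) fun j => ?_))
    rw [kilL_apply, ← vecMul_kil, e, Pi.zero_apply]
  · intro h x hx
    by_contra h0
    exact h ⟨x, h0, funext fun j => by rw [vecMul_kil, hx, Pi.zero_apply]⟩

theorem kilND_bc (φ : E →+* F) : KilND (bc φ γ) ↔ KilND γ := by
  rw [kilND_iff_det, kilND_iff_det]
  have e : (Matrix.of fun i j => kil (bc φ γ) (Pi.single i 1) (Pi.single j 1)) =
      φ.mapMatrix (Matrix.of fun i j => kil γ (Pi.single i 1) (Pi.single j 1)) := by
    ext i j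
    simp only [of_apply, single_eq φ, kil_bc, RingHom.mapMatrix_apply, map_apply]
  rw [e, ← RingHom.map_det, _root_.map_ne_zero]

/-- Derivations are inner. -/
theorem IsDer.exists_adM (h : IsLie γ) (hk : KilND γ) {D : Matrix ι ι E} (hD : IsDer γ D) :
    ∃ x, D = adM γ x := by
  set M : Matrix ι ι E := Matrix.of fun i j => kil γ (Pi.single i 1) (Pi.single j 1) with hM
  have hd : IsUnit M.det := (kilND_iff_det.1 hk).isUnit
  let v : ι → E := fun j => (D * adM γ (Pi.single j 1)).trace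
  let x : ι → E := v ᵥ* M⁻¹
  have hx : x ᵥ* M = v := by
    rw [vecMul_vecMul, nonsing_inv_mul _ hd, vecMul_one]
  let f : (ι → E) →ₗ[E] E :=
    Matrix.traceLinearMap ι E E ∘ₗ LinearMap.mulLeft E (D - adM γ x) ∘ₗ adL γ
  have hf : ∀ y, f y = ((D - adM γ x) * adM γ y).trace := fun _ => rfl
  have h0 : ∀ y, f y = 0 := lin_zero f fun j => by
    rw [hf, Matrix.sub_mul, trace_sub, sub_eq_zero]
    exact (congrFun hx j).symm.trans (vecMul_kil x j)
  have hD' : IsDer γ (D - adM γ x) := fun y z => by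
    have e1 := hD y z
    have e2 := h.isDer x y z
    simp only [← brL_apply] at e1 e2 ⊢
    simp only [sub_mulVec, map_sub, LinearMap.sub_apply, e1, e2]
    abel
  refine ⟨x, sub_eq_zero.1 (mat_ext fun y => ?_)⟩
  rw [zero_mulVec]
  refine hk _ fun z => ?_
  have e1 := h0 (br γ y z)
  rw [hf, h.adM_br, Matrix.mul_sub, trace_sub] at e1
  rw [kil, der_adM hD', Matrix.sub_mul, trace_sub, ← e1, Matrix.mul_assoc, Matrix.mul_assoc,
    trace_mul_comm (adM γ y) ((D - adM γ x) * adM γ z), Matrix.mul_assoc]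

end Field

section Exp

variable [Algebra ℚ R] [Algebra ℚ S]

theorem ex_val (h : IsLie β) {x : ι → R} (hx : IsNilpotent (adM β x)) :
    (ex β x).1.1 = IsNilpotent.exp (adM β x) := by
  refine pick_spec (P := fun u : AutL β => u.1.1 = IsNilpotent.exp (adM β x)) ?_
  exact ⟨⟨⟨_, _, hx.exp_mul_exp_neg_self, hx.exp_neg_mul_exp_self⟩, exp_der (h.isDer x) hx⟩, rfl⟩

theorem ex_mem_Gp (h : IsLie β) {x : ι → R} (hx : IsNilpotent (adM β x)) : ex β x ∈ Gp β := 
  Subgroup.subset_closure ⟨x, hx, ex_val h hx⟩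

theorem ex_zero : ex β 0 = 1 := by
  have e : IsNilpotent.exp (adM β 0) = 1 := by
    rw [← adL_apply, map_zero, IsNilpotent.exp_zero]
  refine aut_ext ((pick_spec (P := fun u : AutL β => u.1.1 = IsNilpotent.exp (adM β 0))
    ⟨1, e.symm⟩).trans e)

theorem trL_ex (h : IsLie β) {f : GL ι R} (hf : IsoL β β' f) {x : ι → R}
    (hx : IsNilpotent (adM β x)) :
    IsNilpotent (adM β' (f.1 *ᵥ x)) ∧ trL f hf (ex β x) = ex β' (f.1 *ᵥ x) := by
  have e : adM β' (f.1 *ᵥ x) = ConjAct.toConjAct f • adM β x := by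
    rw [adM_conj hf, ConjAct.units_smul_def, ConjAct.ofConjAct_toConjAct]
  have hn : IsNilpotent (adM β' (f.1 *ᵥ x)) := by
    rw [e]
    exact hx.map (MulSemiringAction.toRingHom _ _ (ConjAct.toConjAct f))
  refine ⟨hn, aut_ext ?_⟩
  rw [ex_val (hf.isLie h) hn, e, IsNilpotent.exp_smul _ hx, trL_val, ConjAct.units_smul_def,
    ConjAct.ofConjAct_toConjAct, Units.val_mul, Units.val_mul, ex_val h hx]

theorem conj_ex (h : IsLie β) (g : AutL β) {x : ι → R} (hx : IsNilpotent (adM β x)) :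
    g * ex β x * g⁻¹ = ex β (g.1.1 *ᵥ x) := (trL_ex h (f := g.1) g.2 hx).2

theorem ex_add (h : IsLie β) {x y : ι → R} (hx : IsNilpotent (adM β x))
    (hy : IsNilpotent (adM β y)) (hxy : br β x y = 0) : ex β (x + y) = ex β x * ex β y := by
  have hc : Commute (adM β x) (adM β y) := by
    refine sub_eq_zero.1 ?_
    rw [← h.adM_br, hxy, ← adL_apply, map_zero]
  have e : adM β (x + y) = adM β x + adM β y := map_add (adL β) x y
  refine aut_ext ?_
  rw [ex_val h (e ▸ hc.isNilpotent_add hx hy), e, IsNilpotent.exp_add_of_commute hc hx hy,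
    Subgroup.coe_mul, Units.val_mul, ex_val h hx, ex_val h hy]

theorem ex_neg (h : IsLie β) {x : ι → R} (hx : IsNilpotent (adM β x)) :
    ex β (-x) = (ex β x)⁻¹ := by
  have e : adM β (-x) = -adM β x := map_neg (adL β) x
  refine eq_inv_of_mul_eq_one_left (aut_ext ?_)
  rw [Subgroup.coe_mul, Units.val_mul, ex_val h hx, ex_val h (e ▸ hx.neg), e]
  exact hx.exp_neg_mul_exp_self

theorem amapL_ex (h : IsLie β) (φ : R →+* S) {x : ι → R} (hx : IsNilpotent (adM β x)) :
    amapL φ β (ex β x) = ex (bc φ β) (φ ∘ x) := by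
  have hn : IsNilpotent (adM (bc φ β) (φ ∘ x)) := by
    rw [adM_bc]
    exact hx.map φ.mapMatrix
  refine aut_ext ?_
  rw [ex_val (h.bc φ) hn, amapL_val, gmap_val, ex_val h hx, adM_bc]
  exact hx.map_exp φ.mapMatrix

theorem Lie1Aux.Gp_le (h : IsLie β) {H : Subgroup (AutL β)}
    (hH : ∀ x, IsNilpotent (adM β x) → ex β x ∈ H) : Gp β ≤ H := by
  refine (Subgroup.closure_le _).2 ?_
  rintro g ⟨x, hx, e⟩
  rw [aut_ext (e.trans (ex_val h hx).symm)]
  exact hH x hx

theorem Lie1Aux.ex_nsmul (h : IsLie β) {x : ι → R} (hx : IsNilpotent (adM β x)) (n : ℕ) :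
    ex β ((n : R) • x) = ex β x ^ n := by
  induction n with
  | zero => rw [Nat.cast_zero, zero_smul, ex_zero, pow_zero]
  | succ n ih =>
    have e : adM β ((n : R) • x) = (n : R) • adM β x := map_smul (adL β) _ x
    rw [Nat.cast_succ, add_smul, one_smul, ex_add h (e ▸ hx.smul _) hx
      (by rw [br_smul_left, h.1, smul_zero]), ih, pow_succ]

theorem Gp_normal (h : IsLie β) : (Gp β).Normal := by
  refine ⟨fun g hg u => Gp_le h (H := (Gp β).comap (MulAut.conj u).toMonoidHom) (fun x hx => ?_) hg⟩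
  change u * ex β x * u⁻¹ ∈ Gp β
  rw [conj_ex h u hx]
  exact ex_mem_Gp h (trL_ex h (f := u.1) u.2 hx).1

theorem trL_mem_Gp (h : IsLie β) {f : GL ι R} (hf : IsoL β β' f) {g : AutL β} (hg : g ∈ Gp β) :
    trL f hf g ∈ Gp β' := by
  refine Gp_le h (H := (Gp β').comap (trL f hf)) (fun x hx => ?_) hg
  rw [Subgroup.mem_comap, (trL_ex h hf hx).2]
  exact ex_mem_Gp (hf.isLie h) (trL_ex h hf hx).1

theorem amapL_mem_Gp (h : IsLie β) (φ : R →+* S) {g : AutL β} (hg : g ∈ Gp β) :
    amapL φ β g ∈ Gp (bc φ β) := by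
  refine Gp_le h (H := (Gp (bc φ β)).comap (amapL φ β)) (fun x hx => ?_) hg
  rw [Subgroup.mem_comap, amapL_ex h φ hx]
  refine ex_mem_Gp (h.bc φ) ?_
  rw [adM_bc]
  exact hx.map φ.mapMatrix

theorem Gp_le_fiRes (h : IsLie β) : Gp β ≤ fiRes (AutL β) := by
  refine Gp_le h fun x hx => mem_fiRes_of_root fun k hk => ?_
  have e : adM β (algebraMap ℚ R (k : ℚ)⁻¹ • x) = algebraMap ℚ R (k : ℚ)⁻¹ • adM β x :=
    map_smul (adL β) _ x
  refine ⟨ex β (algebraMap ℚ R (k : ℚ)⁻¹ • x), ?_⟩
  rw [← ex_nsmul h (e ▸ hx.smul _), smul_smul, ← map_natCast (algebraMap ℚ R), ← map_mul,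
    mul_inv_cancel₀ (Nat.cast_ne_zero.2 hk.ne'), map_one, one_smul]

end Exp

end Pool.Agent.P.MP_3c2f8c_gt.E6
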