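import Mathlib

/-!
Definitions for the statement in type `E₆`: Lie algebras given by structure constants, their
automorphism groups, the symmetric space of a Cartan involution and its Laplacian, arithmetic
subgroups.
-/

namespace Pool.Agent.P.MP_3c2f8c_gt.E6

open Matrix Topology

section Tensor

/-- Structure constants: `[bᵢ, bⱼ] = ∑ₖ β i j k • bₖ`. -/
abbrev Tens (ι R : Type) : Type := ι → ι → ι → R

variable {ι : Type} [Fintype ι] [DecidableEq ι] {R S : Type} [CommRing R] [CommRing S]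

/-- The matrix of `ad x`. -/
def adM (β : Tens ι R) (x : ι → R) : Matrix ι ι R := Matrix.of fun k j => ∑ i, x i * β i j k

/-- The bracket. -/
def br (β : Tens ι R) (x y : ι → R) : ι → R := adM β x *ᵥ y

/-- The bracket is alternating and satisfies the Jacobi identity. -/
def IsLie (β : Tens ι R) : Prop :=
  (∀ x, br β x x = 0) ∧ ∀ x y z, br β x (br β y z) = br β (br β x y) z + br β y (br β x z)

/-- The Killing form. -/
def kil (β : Tens ι R) (x y : ι → R) : R := (adM β x * adM β y).trace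

/-- Change of the base ring. -/
def bc (φ : R →+* S) (β : Tens ι R) : Tens ι S := fun i j k => φ (β i j k)

/-- `g` is an isomorphism from the algebra `β` onto the algebra `β'`. -/
def IsoL (β β' : Tens ι R) (g : GL ι R) : Prop :=
  ∀ x y, g.1 *ᵥ br β x y = br β' (g.1 *ᵥ x) (g.1 *ᵥ y)

/-- The automorphism group. -/
def AutL (β : Tens ι R) : Subgroup (GL ι R) where
  carrier := {g | IsoL β β g}
  one_mem' := fun x y => by simp
  mul_mem' := by
    intro g h hg hh x y
    rw [Units.val_mul, ← mulVec_mulVec, ← mulVec_mulVec, ← mulVec_mulVec, hh, hg]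
  inv_mem' := by
    intro g hg x y
    have e : ∀ x, g.1 *ᵥ ((g⁻¹).1 *ᵥ x) = x := fun x => by
      rw [mulVec_mulVec, ← Units.val_mul, mul_inv_cancel, Units.val_one, one_mulVec]
    have e' : ∀ x, (g⁻¹).1 *ᵥ (g.1 *ᵥ x) = x := fun x => by
      rw [mulVec_mulVec, ← Units.val_mul, inv_mul_cancel, Units.val_one, one_mulVec]
    rw [← e' (br β ((g⁻¹).1 *ᵥ x) ((g⁻¹).1 *ᵥ y)), hg, e, e]

/-- The group generated by the automorphisms `exp (ad x)` with `ad x` nilpotent. -/
def Gp [Algebra ℚ R] (β : Tens ι R) : Subgroup (AutL β) :=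
  Subgroup.closure {g | ∃ x, IsNilpotent (adM β x) ∧ g.1.1 = IsNilpotent.exp (adM β x)}

/-- The complex Lie algebra `β` is generated by non-zero elements that satisfy the
Chevalley-Serre relations of type `E₆`; being finite-dimensional, it is simple of type `E₆`. -/
def IsE6 (β : Tens ι ℂ) : Prop :=
  ∃ e f h : Fin 6 → ι → ℂ, (∀ i, h i ≠ 0) ∧ (∀ i j, br β (h i) (h j) = 0) ∧
    (∀ i j, br β (e i) (f j) = if i = j then h i else 0) ∧
    (∀ i j, br β (h i) (e j) = (CartanMatrix.E₆ i j : ℂ) • e j) ∧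
    (∀ i j, br β (h i) (f j) = -((CartanMatrix.E₆ i j : ℂ) • f j)) ∧
    (∀ i j, i ≠ j → adM β (e i) ^ (1 - CartanMatrix.E₆ i j).toNat *ᵥ e j = 0 ∧
      adM β (f i) ^ (1 - CartanMatrix.E₆ i j).toNat *ᵥ f j = 0) ∧
    ∀ W : Submodule ℂ (ι → ℂ), (∀ i, e i ∈ W ∧ f i ∈ W) →
      (∀ x ∈ W, ∀ y ∈ W, br β x y ∈ W) → W = ⊤

end Tensor

section Real

variable {ι : Type} [Fintype ι] [DecidableEq ι] {β : Tens ι ℝ}

/-- `θ` is a Cartan involution: `θ² = 1` and `-B(x, θ x)` is positive definite. -/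
def IsCartan (θ : AutL β) : Prop := θ * θ = 1 ∧ ∀ x, x ≠ 0 → kil β x (θ.1.1 *ᵥ x) < 0

/-- Smooth functions on the automorphism group: locally restrictions of smooth functions of the
matrix entries. -/
def Smooth (f : AutL β → ℝ) : Prop :=
  ∀ g : AutL β, ∃ F : (ι → ι → ℝ) → ℝ, ContDiff ℝ (⊤ : ℕ∞) F ∧
    ∀ᶠ g' in 𝓝 g, f g' = F fun i j => g'.1.1 i j

/-- The function `x ↦ f (g * exp (ad x))` on the Lie algebra. -/
noncomputable def chart (f : AutL β → ℝ) (g : AutL β) (x : ι → ℝ) : ℝ :=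
  Function.extend (fun u : AutL β => u.1.1) f 0 (g.1.1 * NormedSpace.exp (adM β x))

/-- The derivative in the `i`-th coordinate direction. -/
noncomputable def pd (i : ι) (F : (ι → ℝ) → ℝ) (x : ι → ℝ) : ℝ := fderiv ℝ F x (Pi.single i 1)

variable (β) in
/-- The Gram matrix of the Killing form. -/
def kilM : Matrix ι ι ℝ := Matrix.of fun i j => kil β (Pi.single i 1) (Pi.single j 1)

/-- The Casimir operator of the Killing form. On functions invariant under right translation by
the centraliser `K` of a Cartan involution it is the Laplace-Beltrami operator of the symmetric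
space `Aut / K` for the invariant metric given by the Killing form. -/
noncomputable def lap (f : AutL β → ℝ) (g : AutL β) : ℝ :=
  ∑ i, ∑ j, (kilM β)⁻¹ i j * pd i (pd j (chart f g)) 0

/-- The eigenspace of the Laplacian on the quotient of the symmetric space `Aut / K` by `Γ`: the
(space spanned by the) smooth functions on `Γ \ Aut / K` with `lap f = -ev * f`. -/
def Eig (θ : AutL β) (Γ : Subgroup (AutL β)) (ev : ℝ) : Submodule ℝ (AutL β → ℝ) :=
  Submodule.span ℝ {f | Smooth f ∧ (∀ γ ∈ Γ, ∀ g, f (γ * g) = f g) ∧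
    (∀ u, u * θ = θ * u → ∀ g, f (g * u) = f g) ∧ ∀ g, lap f g = -ev * f g}

/-- `Γ` is a discrete, torsion-free, cocompact group of automorphisms that are inner over `ℂ`,
that is, real points of the adjoint algebraic group. -/
def IsCptMfd (Γ : Subgroup (AutL β)) : Prop :=
  (∀ R : ℝ, {g : AutL β | g ∈ Γ ∧ ∀ i j, |g.1.1 i j| ≤ R}.Finite) ∧
  (∀ g ∈ Γ, IsOfFinOrder g → g = 1) ∧
  (∃ C : Set (AutL β), IsCompact C ∧ ∀ g : AutL β, ∃ γ ∈ Γ, γ * g ∈ C) ∧
  ∀ g ∈ Γ, ∃ u ∈ Gp (bc Complex.ofRealHom β), u.1.1 = g.1.1.map Complex.ofRealHom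

/-- The two quotients have the same Laplace eigenvalues with the same finite multiplicities. -/
def Isospectral (θ : AutL β) (Γ₁ Γ₂ : Subgroup (AutL β)) : Prop :=
  ∀ ev : ℝ, Module.Finite ℝ (Eig θ Γ₁ ev) ∧ Module.Finite ℝ (Eig θ Γ₂ ev) ∧
    Module.finrank ℝ (Eig θ Γ₁ ev) = Module.finrank ℝ (Eig θ Γ₂ ev)

/-- The two quotients have a common finite isometric cover: a conjugate of `Γ₁` by an isometry
(an automorphism of the real Lie algebra) meets `Γ₂` in a subgroup of finite index in both. -/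
def WideComm (Γ₁ Γ₂ : Subgroup (AutL β)) : Prop :=
  ∃ g : AutL β, Subgroup.Commensurable (Γ₁.map (MulAut.conj g).toMonoidHom) Γ₂

open NumberField in
/-- `Γ` is arithmetic: there are a number field `k`, a real place `v₀`, a `k`-form `β'` of `β` at
`v₀` that is compact (real with negative definite Killing form) at all other infinite places, and
`Γ` is commensurable with the group of automorphisms of `β'` that lie in `GL(𝓞 k)`. -/
def IsArith (Γ : Subgroup (AutL β)) : Prop :=
  ∃ (k : Type) (_ : Field k) (_ : NumberField k) (v₀ : k →+* ℝ) (β' : Tens ι k) (f : GL ι ℝ),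
    IsoL (bc v₀ β') β f ∧
    (∀ φ : k →+* ℂ, φ ≠ Complex.ofRealHom.comp v₀ → ∃ ψ : k →+* ℝ,
      φ = Complex.ofRealHom.comp ψ ∧ ∀ x, x ≠ 0 → kil (bc ψ β') x x < 0) ∧
    Subgroup.Commensurable Γ
      (((AutL β' ⊓ (GeneralLinearGroup.map (algebraMap (𝓞 k) k)).range).map
        ((MulAut.conj f).toMonoidHom.comp (GeneralLinearGroup.map v₀))).subgroupOf (AutL β))

end Real

/-- Case (c): two compact arithmetic locally symmetric spaces of type `E₆`, attached to the same
non-compact real form, that are isospectral and not commensurable. -/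
def CaseE6 : Prop :=
  ∃ (ι : Type) (_ : Fintype ι) (_ : DecidableEq ι) (β : Tens ι ℝ) (θ : AutL β),
    IsLie β ∧ IsE6 (bc Complex.ofRealHom β) ∧ IsCartan θ ∧ θ ≠ 1 ∧
    ∃ Γ₁ Γ₂ : Subgroup (AutL β), IsCptMfd Γ₁ ∧ IsCptMfd Γ₂ ∧ IsArith Γ₁ ∧ IsArith Γ₂ ∧
      Isospectral θ Γ₁ Γ₂ ∧ ¬ WideComm Γ₁ Γ₂

end Pool.Agent.P.MP_3c2f8c_gt.E6
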