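import Pool.Agent.P.MP_3c2f8c_gt.NT.Compl

/-!
Local fields of characteristic zero (`NontriviallyNormedField`, `IsUltrametricDist`, `ProperSpace`,
`CharZero`), their normed algebraic closures, and completions of number fields.
-/

namespace Pool.Agent.P.MP_3c2f8c_gt.E6

open NumberField IsDedekindDomain
open Pool.Agent.P.MP_9ec3f0_nt.SY

section Cl

variable (E : Type) [NontriviallyNormedField E] [IsUltrametricDist E] [ProperSpace E]

/-- The algebraic closure of a local field, with the spectral norm. -/
def Cl : Type := AlgebraicClosure E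

noncomputable instance : Field (Cl E) := inferInstanceAs (Field (AlgebraicClosure E))

noncomputable instance : Algebra E (Cl E) := inferInstanceAs (Algebra E (AlgebraicClosure E))

instance : IsAlgClosure E (Cl E) := inferInstanceAs (IsAlgClosure E (AlgebraicClosure E))

instance : IsAlgClosed (Cl E) := IsAlgClosure.isAlgClosed E

instance : Algebra.IsAlgebraic E (Cl E) := IsAlgClosure.isAlgebraic

noncomputable instance : NontriviallyNormedField (Cl E) :=
  spectralNorm.nontriviallyNormedField E (Cl E)

noncomputable instance : NormedAlgebra E (Cl E) := spectralNorm.normedAlgebra E (Cl E)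

instance : IsUltrametricDist (Cl E) :=
  IsUltrametricDist.isUltrametricDist_of_forall_norm_add_le_max_norm
    (isNonarchimedean_spectralNorm (K := E) (L := Cl E))

instance [CharZero E] : CharZero (Cl E) :=
  charZero_of_injective_algebraMap (algebraMap E (Cl E)).injective

/-- The absolute Galois group. -/
abbrev GalE : Type := Cl E ≃ₐ[E] Cl E

variable {E}

theorem norm_cl (x : Cl E) : ‖x‖ = spectralNorm E (Cl E) x := rfl

theorem norm_gal (σ : GalE E) (x : Cl E) : ‖σ x‖ = ‖x‖ := (spectralNorm_eq_of_equiv σ x).symm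

theorem norm_algebraMap_cl (x : E) : ‖algebraMap E (Cl E) x‖ = ‖x‖ := norm_algebraMap' _ x

end Cl

section Compl

variable {K : Type} [Field K] [NumberField K]

/-- The completion at a finite place. -/
abbrev Kv (v : Pr K) : Type := v.adicCompletion K

noncomputable instance (v : Pr K) : NontriviallyNormedField (Kv v) :=
  Valued.toNontriviallyNormedField _ (WithZero (Multiplicative ℤ))

instance (v : Pr K) : CharZero (Kv v) := adic_charZero v

instance (v : Pr K) : IsUltrametricDist (Kv v) := inferInstance

open Metric in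
instance (v : Pr K) : ProperSpace (Kv v) := by
  obtain ⟨L, hL⟩ := exists_adicLF v
  obtain ⟨s, hs, hs'⟩ := L.fin
  have hπ := L.v_π
  rw [hL] at hs hs' hπ
  have hπ1 : ‖L.π‖ < 1 := by
    rw [Valued.toNormedField.norm_lt_one_iff, hπ, ← WithZero.exp_zero, WithZero.exp_lt_exp]
    decide
  have hπ0 : L.π ≠ 0 := by
    intro h
    rw [h, map_zero] at hπ
    exact WithZero.exp_ne_zero hπ.symm
  have key : ∀ n : ℕ, ∃ t : Finset (Kv v), ∀ x : Kv v, ‖x‖ ≤ 1 → ∃ r ∈ t,
      ‖x - r‖ ≤ ‖L.π‖ ^ n := by
    classical
    intro n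
    induction n with
    | zero => exact ⟨{0}, fun x hx => ⟨0, by simp, by simpa using hx⟩⟩
    | succ n ih =>
      obtain ⟨t, ht⟩ := ih
      refine ⟨(t ×ˢ s).image fun p => p.1 + L.π ^ n * p.2, fun x hx => ?_⟩
      obtain ⟨r, hr, h1⟩ := ht x hx
      have hn : 0 < ‖L.π‖ ^ n := pow_pos (norm_pos_iff.2 hπ0) n
      have h2 : ‖(x - r) / L.π ^ n‖ ≤ 1 := by
        rw [norm_div, norm_pow, div_le_one hn]
        exact h1
      obtain ⟨r', hr', h3⟩ := hs' _ (Valued.toNormedField.norm_le_one_iff.1 h2)
      refine ⟨_, Finset.mem_image_of_mem _ (Finset.mk_mem_product hr hr'), ?_⟩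
      have h4 : ‖(x - r) / L.π ^ n - r'‖ ≤ ‖L.π‖ := by
        rw [Valued.toNormedField.norm_le_iff, hπ]
        by_cases h0 : Valued.v ((x - r) / L.π ^ n - r') = 0
        · rw [h0]
          exact zero_le
        · rw [← WithZero.exp_log h0, ← WithZero.exp_zero, WithZero.exp_lt_exp] at h3
          rw [← WithZero.exp_log h0, WithZero.exp_le_exp]
          omega
      have e : x - (r + L.π ^ n * r') = L.π ^ n * ((x - r) / L.π ^ n - r') := by
        field_simp
        ring
      show ‖x - (r + L.π ^ n * r')‖ ≤ _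
      rw [e, norm_mul, norm_pow, pow_succ]
      exact mul_le_mul_of_nonneg_left h4 hn.le
  have hc : IsCompact (closedBall (0 : Kv v) 1) := by
    refine isCompact_iff_totallyBounded_isComplete.2 ⟨Metric.totallyBounded_iff.2 fun ε hε => ?_,
      isClosed_closedBall.isComplete⟩
    obtain ⟨n, hn⟩ := exists_pow_lt_of_lt_one hε hπ1
    obtain ⟨t, ht⟩ := key n
    refine ⟨t, t.finite_toSet, fun x hx => ?_⟩
    obtain ⟨r, hr, h⟩ := ht x (mem_closedBall_zero_iff.1 hx)
    exact Set.mem_biUnion hr (mem_ball_iff_norm.2 (h.trans_lt hn))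
  have : LocallyCompactSpace (Kv v) :=
    IsCompact.locallyCompactSpace_of_mem_nhds_of_addGroup hc (closedBall_mem_nhds 0 zero_lt_one)
  exact .of_nontriviallyNormedField_of_weaklyLocallyCompactSpace _

/-- The algebraic closure of the completion. -/
abbrev Cv (v : Pr K) : Type := Cl (Kv v)

noncomputable instance (v : Pr K) : Algebra K (Cv v) :=
  ((algebraMap (Kv v) (Cv v)).comp (algebraMap K (Kv v))).toAlgebra

instance (v : Pr K) : IsScalarTower K (Kv v) (Cv v) := IsScalarTower.of_algebraMap_eq fun _ => rfl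

end Compl

end Pool.Agent.P.MP_3c2f8c_gt.E6
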