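import Pool.Agent.P.MP_3c2f8c_gt.E6.Model
import Pool.Agent.P.MP_3c2f8c_gt.E6.Loc

/-!
Galois cocycles: groups acting on a field, cocycles of finite level, the standard cocycles of the
forms of type `E₆`, restriction to completions, global data.
-/

namespace Pool.Agent.P.MP_3c2f8c_gt.E6

open Matrix NumberField
open Pool.Agent.P.MP_9ec3f0_nt.SY

section Gal

variable {Γ : Type} [Group Γ] {Ω : Type} [Field Ω] [MulSemiringAction Γ Ω]

variable (Γ Ω) in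
/-- Every element of `Ω` has a finite orbit. -/
class Gd : Prop where
  fin : ∀ x : Ω, (MulAction.orbit Γ x).Finite

instance (Δ : Subgroup Γ) [h : Gd Γ Ω] : Gd Δ Ω :=
  ⟨fun x => (h.fin x).subset fun _ ⟨σ, hσ⟩ => ⟨σ.1, hσ⟩⟩

instance {K : Type} [Field K] [Algebra K Ω] [Algebra.IsAlgebraic K Ω] : Gd (Ω ≃ₐ[K] Ω) Ω :=
  ⟨fun x => by
    classical
    have hx := (Algebra.IsAlgebraic.isAlgebraic (R := K) x).isIntegral
    refine ((minpoly K x).rootSet_finite Ω).subset ?_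
    rintro _ ⟨σ, rfl⟩
    rw [Polynomial.mem_rootSet]
    refine ⟨minpoly.ne_zero hx, ?_⟩
    show Polynomial.aeval (σ x) (minpoly K x) = 0
    rw [Polynomial.aeval_algEquiv, AlgHom.comp_apply, minpoly.aeval, map_zero]⟩

/-- The ring homomorphism given by `σ`. -/
abbrev sh (σ : Γ) : Ω →+* Ω := MulSemiringAction.toRingHom Γ Ω σ

variable (Ω) in
/-- `f` has finite level. -/
def FL {X : Type} (f : Γ → X) : Prop :=
  ∃ s : Finset Ω, ∀ σ τ : Γ, (∀ x ∈ s, σ • x = τ • x) → f σ = f τ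

variable (Ω) in
/-- `Δ` is an open subgroup. -/
def Opn (Δ : Subgroup Γ) : Prop := ∃ s : Finset Ω, ∀ σ : Γ, (∀ x ∈ s, σ • x = x) → σ ∈ Δ

/-- Cocycles with values in the automorphism group of the split algebra. -/
def Coc (g : Γ → A0 Ω) : Prop := FL Ω g ∧ ∀ σ τ, g (σ * τ) = g σ * amap (sh σ) (g τ)

/-- The cocycle `g` changed by `h`. -/
def cob (h : A0 Ω) (g : Γ → A0 Ω) (σ : Γ) : A0 Ω := h⁻¹ * g σ * amap (sh σ) h

/-- The two cocycles are equivalent under an inner automorphism. -/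
def CohI (g g' : Γ → A0 Ω) : Prop := ∃ h ∈ Inn Ω, g' = cob h g

/-- Scalar `2`-cocycles. -/
def Coc2 (c : Γ → Γ → Ω) : Prop :=
  FL Ω c ∧ FL Ω (fun τ σ => c σ τ) ∧ (∀ σ τ, c σ τ ≠ 0) ∧
    ∀ σ τ υ, c σ τ * c (σ * τ) υ = σ • c τ υ * c σ (τ * υ)

/-- Scalar `2`-coboundaries. -/
def Cob2 (c : Γ → Γ → Ω) : Prop :=
  ∃ b : Γ → Ω, FL Ω b ∧ (∀ σ, b σ ≠ 0) ∧ ∀ σ τ, c σ τ * b (σ * τ) = b σ * σ • b τ

/-- Projective cocycles with factor system `c`. -/
def PCoc {n : Type} [Fintype n] [DecidableEq n] (A : Γ → GL n Ω) (c : Γ → Γ → Ω) : Prop :=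
  FL Ω A ∧ ∀ σ τ, (A σ * gmap (sh σ) (A τ)).1 = c σ τ • (A (σ * τ)).1

/-- The algebra of a projective cocycle: the matrices fixed by the twisted action. -/
def DAlg {n : Type} [Fintype n] [DecidableEq n] (A : Γ → GL n Ω) : Set (Matrix n n Ω) :=
  {x | ∀ σ, (A σ).1 * x.map (sh σ) = x * (A σ).1}

/-- The twisted action on the torus. -/
def tact (w : Γ →* RA) (σ : Γ) (t : Tor Ω) : Tor Ω := tmap (sh σ) (tw (w σ) t)

/-- Cocycles with values in the twisted torus. -/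
def TCoc (w : Γ →* RA) (y : Γ → Tor Ω) : Prop :=
  FL Ω y ∧ ∀ σ τ, y (σ * τ) = y σ * tact w σ (y τ)

/-- Coboundaries with values in the twisted torus. -/
def TCob (w : Γ →* RA) (y : Γ → Tor Ω) : Prop := ∃ s, ∀ σ, y σ = s⁻¹ * tact w σ s

open Classical in
/-- For a primitive ninth root of unity `ζ`: the `i` with `σ ζ = ζ ^ (± 4 ^ i)`. -/
noncomputable def ci (ζ : Ω) (σ : Γ) : Fin 3 :=
  if σ • ζ = ζ ∨ σ • ζ = ζ ^ 8 then 0 else if σ • ζ = ζ ^ 4 ∨ σ • ζ = ζ ^ 5 then 1 else 2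

variable (Γ) in
/-- The elements that fix the third root of unity `ζ ^ 3`. -/
abbrev Gz (ζ : Ω) : Subgroup Γ := MulAction.stabilizer Γ (ζ ^ 3)

/-- The carry in the addition modulo `3`. -/
def car (i j : Fin 3) : ℕ := (i.val + j.val) / 3

/-- The factor system of the cyclic algebra given by `χ` and `x`. -/
def cyc (χ : Γ → Fin 3) (x : Ω) (σ τ : Γ) : Ω := x ^ car (χ σ) (χ τ)

variable (Γ) in
/-- The cyclic algebra given by `ζ` and `x` over the fixed field of `Gz Γ ζ` is split. -/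
def CT (ζ x : Ω) : Prop := Cob2 (Γ := Gz Γ ζ) (cyc (fun σ => ci ζ σ.1) x)

/-- The companion matrix with cube `a`. -/
noncomputable def Cm (a : Ω) : GL (Fin 3) Ω := toGL !![0, 0, a; 1, 0, 0; 0, 1, 0]

/-- The inner cocycle `[1, C^i, C^(-iT)]`. -/
noncomputable def gin (χ : Γ → Fin 3) (a : Ω) (σ : Γ) : A0 Ω :=
  tri ![1, Cm a ^ (χ σ).val, itr (Cm a) ^ (χ σ).val]

open Classical in
/-- The standard cocycle `[H^e, C^i, C^(-iT)] ι₀^e`. -/
noncomputable def gstd (ζ : Ω) (H : Fin 3 → Ω) (a : Ω) (σ : Γ) : A0 Ω :=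
  gin (ci ζ) a σ * if σ ∈ Gz Γ ζ then 1 else tri ![toGL (diagonal H), 1, 1] * io0 Ω

/-- The inner cocycle `g` has the Tits algebra of `gin χ a`. -/
def Tits (χ : Γ → Fin 3) (a : Ω) (g : Γ → A0 Ω) : Prop :=
  ∃ A : Γ → GL T3 Ω, (∀ σ, Lift (g σ) (A σ)) ∧ PCoc A fun σ τ => (cyc χ a σ τ)⁻¹

open Classical in
variable (Γ) in
/-- `a` is a non-zero element of the fixed field of `Gz Γ ζ` of norm one. -/
def Nm1 (ζ a : Ω) : Prop := a ≠ 0 ∧ ∀ σ : Γ, σ • a = if σ ∈ Gz Γ ζ then a else a⁻¹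

variable (Γ) in
/-- The cyclic algebra given by `ζ` and `a` is a division algebra. -/
def Dv (ζ a : Ω) : Prop :=
  ∀ x ∈ DAlg fun σ : Gz Γ ζ => Cm a ^ (ci ζ σ.1).val, x ≠ 0 → x.det ≠ 0

/-- `ψ` is a frame of the form `β` with cocycle `g`. -/
def Fr {K : Type} [Field K] (φ : K →+* Ω) (β : Tens Ix K) (ψ : GL Ix Ω) (g : Γ → A0 Ω) : Prop :=
  IsoL (b0 Ω) (bc φ β) ψ ∧ ∀ σ, gmap (sh σ) ψ = ψ * (g σ).1

end Gal

/-- `γ` is conjugate over `Ω` to a strongly regular element of the standard torus. -/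
def RegF {K Ω : Type} [Field K] [Field Ω] (φ : K →+* Ω) {β : Tens Ix K} (γ : AutL β) : Prop :=
  ∃ (ψ : GL Ix Ω) (t : Tor Ω), IsoL (b0 Ω) (bc φ β) ψ ∧ SReg t ∧ gmap φ γ.1 * ψ = ψ * (tor t).1

section Res

variable {K Ω Ω' : Type} (E : Type) [Field K] [Field Ω] [Field E] [Field Ω'] [Algebra K Ω]
  [Normal K Ω] [Algebra K E] [Algebra E Ω'] [Algebra K Ω'] [IsScalarTower K E Ω']

/-- Restriction of automorphisms along `ι`. -/
noncomputable def res (ι : Ω →ₐ[K] Ω') : (Ω' ≃ₐ[E] Ω') →* (Ω ≃ₐ[K] Ω) :=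
  letI := ι.toRingHom.toAlgebra
  haveI : IsScalarTower K Ω Ω' := IsScalarTower.of_algebraMap_eq fun x => (ι.commutes x).symm
  (AlgEquiv.restrictNormalHom Ω).comp
    { toFun := fun σ => σ.restrictScalars K
      map_one' := rfl
      map_mul' := fun _ _ => rfl }

variable {E}

theorem res_spec (ι : Ω →ₐ[K] Ω') (σ : Ω' ≃ₐ[E] Ω') (x : Ω) : ι (res E ι σ x) = σ (ι x) := by
  letI := ι.toRingHom.toAlgebra
  haveI : IsScalarTower K Ω Ω' := IsScalarTower.of_algebraMap_eq fun x => (ι.commutes x).symm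
  exact AlgEquiv.restrictNormal_commutes (σ.restrictScalars K) Ω x

variable (E) in
/-- Restriction on the preimage of a subgroup. -/
noncomputable def resS (ι : Ω →ₐ[K] Ω') (Δ : Subgroup (Ω ≃ₐ[K] Ω)) :
    Δ.comap (res E ι) →* Δ :=
  ((res E ι).comp (Subgroup.subtype _)).codRestrict Δ fun σ => σ.2

end Res

section Local

variable {E : Type} [NontriviallyNormedField E] [IsUltrametricDist E]

/-- `g` and its inverse are integral. -/
def IntG {n : Type} [Fintype n] [DecidableEq n] (g : GL n E) : Prop :=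
  (∀ i j, ‖g.1 i j‖ ≤ 1) ∧ ∀ i j, ‖(g⁻¹).1 i j‖ ≤ 1

theorem norm_mul_le_one {n : Type} [Fintype n] {A B : Matrix n n E} (hA : ∀ i j, ‖A i j‖ ≤ 1)
    (hB : ∀ i j, ‖B i j‖ ≤ 1) (i j : n) : ‖(A * B) i j‖ ≤ 1 := by
  rw [Matrix.mul_apply]
  refine IsUltrametricDist.norm_sum_le_of_forall_le_of_nonneg zero_le_one fun l _ => ?_
  rw [norm_mul]
  exact mul_le_one₀ (hA _ _) (norm_nonneg _) (hB _ _)

/-- The integral automorphisms. -/
def K0 {n : Type} [Fintype n] [DecidableEq n] (β : Tens n E) : Subgroup (AutL β) where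
  carrier := {g | IntG g.1}
  one_mem' := by
    have h : ∀ i j, ‖(1 : Matrix n n E) i j‖ ≤ 1 := fun i j => by
      by_cases h : i = j <;> simp [Matrix.one_apply, h]
    exact ⟨h, by simpa using h⟩
  mul_mem' := fun {g h} hg hh => ⟨norm_mul_le_one hg.1 hh.1, by
    rw [Subgroup.coe_mul, _root_.mul_inv_rev]
    exact norm_mul_le_one hh.2 hg.2⟩
  inv_mem' := fun {g} hg => ⟨hg.2, by simpa using hg.1⟩

/-- `π` is a uniformiser. -/
def Unif (π : E) : Prop := π ≠ 0 ∧ ‖π‖ < 1 ∧ ∀ x : E, ‖x‖ < 1 → ‖x‖ ≤ ‖π‖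

variable (E) [ProperSpace E]

/-- The place splits in `L` and the algebra is split. -/
def TySp (ζ a : Cl E) : Prop := Gz (GalE E) ζ = ⊤ ∧ CT (GalE E) ζ a

/-- The place does not split in `L` (and the algebra is split). -/
def TyNs (ζ a : Cl E) : Prop := Gz (GalE E) ζ ≠ ⊤ ∧ CT (GalE E) ζ a

/-- The place splits in `L`, is inert in `F / L`, and the order of `a` is prime to `3`. -/
def TyDv (ζ a : Cl E) : Prop :=
  Gz (GalE E) ζ = ⊤ ∧ (∃ σ : GalE E, σ ζ ≠ ζ) ∧ ‖(3 : E)‖ = 1 ∧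
    ∃ (π : E) (m : ℤ), Unif π ∧ ¬ 3 ∣ m ∧ ‖a‖ = ‖π‖ ^ m

end Local

section Global

variable (k Ω : Type) [Field k] [Field Ω] [Algebra k Ω]

/-- The global data: a totally real field with a distinguished real place, a primitive ninth root
of unity and a diagonal hermitian form of determinant one, of signature `(1,2)` at the
distinguished place and positive definite at the others. -/
structure GD where
  ζ : Ω
  hζ : ζ ^ 6 + ζ ^ 3 + 1 = 0
  v0 : k →+* ℝ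
  real : ∀ φ : k →+* ℂ, ∃ ψ : k →+* ℝ, φ = Complex.ofRealHom.comp ψ
  other : ∃ ψ : k →+* ℝ, ψ ≠ v0
  H : Fin 3 → k
  prod : H 0 * H 1 * H 2 = 1
  sign0 : 0 < v0 (H 0) ∧ v0 (H 1) < 0 ∧ v0 (H 2) < 0
  sign1 : ∀ ψ : k →+* ℝ, ψ ≠ v0 → ∀ i, 0 < ψ (H i)

variable {k Ω}

/-- The standard cocycle of the data. -/
noncomputable def GD.g (D : GD k Ω) (a : Ω) : (Ω ≃ₐ[k] Ω) → A0 Ω :=
  gstd D.ζ (fun i => algebraMap k Ω (D.H i)) a

/-- A form over `k` with a frame whose cocycle is the standard cocycle of `a`. -/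
structure Form (D : GD k Ω) (a : Ω) where
  β : Tens Ix k
  ψ : GL Ix Ω
  nm : Nm1 (Ω ≃ₐ[k] Ω) D.ζ a
  dv : Dv (Ω ≃ₐ[k] Ω) D.ζ a
  fr : Fr (algebraMap k Ω) β ψ (D.g a)

/-- At every complex embedding the value of `g` at complex conjugation is equivalent to the
standard one. -/
def RealStd (D : GD k Ω) (g : (Ω ≃ₐ[k] Ω) → A0 Ω) : Prop :=
  ∀ (ι : Ω →+* ℂ) (σ : Ω ≃ₐ[k] Ω), (∀ x, ι (σ x) = starRingEnd ℂ (ι x)) → ∃ h : A0 ℂ,
    amap ι (g σ) = h⁻¹ * (tri ![toGL (diagonal fun i => ι (algebraMap k Ω (D.H i))), 1, 1] *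
      io0 ℂ) * amap (starRingEnd ℂ) h

variable [NumberField k] [IsAlgClosure k Ω]

/-- The cocycle `y` is a coboundary at the place given by `ι`. -/
def LocT {v : Pr k} (ι : Ω →ₐ[k] Cv v) (w : (Ω ≃ₐ[k] Ω) →* RA) (y : (Ω ≃ₐ[k] Ω) → Tor Ω) :
    Prop :=
  TCob (w.comp (res (Kv v) ι)) fun σ => tmap ι.toRingHom (y (res (Kv v) ι σ))

/-- The cocycle `y` is the coboundary of an integral point at the place given by `ι`. -/
def LocTI {v : Pr k} (ι : Ω →ₐ[k] Cv v) (w : (Ω ≃ₐ[k] Ω) →* RA) (y : (Ω ≃ₐ[k] Ω) → Tor Ω) :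
    Prop :=
  ∃ s : Tor (Cv v), (∀ q, ‖(s q : Cv v)‖ = 1) ∧ ∀ σ, tmap ι.toRingHom (y (res (Kv v) ι σ)) =
    s⁻¹ * tact (w.comp (res (Kv v) ι)) σ s

/-- The factor system `c` is a coboundary at the place given by `ι`. -/
def LocC {v : Pr k} (ι : Ω →ₐ[k] Cv v) (Δ : Subgroup (Ω ≃ₐ[k] Ω)) (c : Δ → Δ → Ω) : Prop :=
  Cob2 (Γ := Δ.comap (res (Kv v) ι)) fun σ τ => ι (c (resS (Kv v) ι Δ σ) (resS (Kv v) ι Δ τ))

/-- The Tits algebras given by `a` and `a'` are locally isomorphic outside `S` and locally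
opposite at the places of `S`, which split in `L`. -/
def Flip (ζ a a' : Ω) (S : Finset (Pr k)) : Prop :=
  (∀ v, v ∉ S → ∀ ι : Ω →ₐ[k] Cv v, CT (GalE (Kv v)) (ι ζ) (ι (a / a'))) ∧
    ∀ v ∈ S, ∀ ι : Ω →ₐ[k] Cv v,
      Gz (GalE (Kv v)) (ι ζ) = ⊤ ∧ CT (GalE (Kv v)) (ι ζ) (ι (a * a'))

end Global

end Pool.Agent.P.MP_3c2f8c_gt.E6
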