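import Pool.Agent.P.MP_3c2f8c_gt.E6.GDefs

/-! E6-Gal1: semilinear actions (Speiser, Hilbert 90), density of fixed vectors, specialisation. -/

namespace Pool.Agent.P.MP_3c2f8c_gt.E6

open Matrix

variable {Γ : Type} [Group Γ] {Ω : Type} [Field Ω] [MulSemiringAction Γ Ω]

/-- A smooth semilinear action of `Γ` on the `Ω`-vector space `V`. -/
structure SL (Γ Ω V : Type) [Group Γ] [Field Ω] [MulSemiringAction Γ Ω] [AddCommGroup V]
    [Module Ω V] where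
  a : Γ → V →+ V
  one : ∀ v, a 1 v = v
  mul : ∀ σ τ v, a (σ * τ) v = a σ (a τ v)
  smul : ∀ (σ : Γ) (c : Ω) v, a σ (c • v) = (σ • c) • a σ v
  fl : ∀ v, ∃ s : Finset Ω, ∀ σ : Γ, (∀ x ∈ s, σ • x = x) → a σ v = v

theorem FL.const {X : Type} (x : X) : FL Ω fun _ : Γ => x := ⟨∅, fun _ _ _ => rfl⟩

theorem FL.comp {X Y : Type} {f : Γ → X} (h : FL Ω f) (F : X → Y) : FL Ω fun σ => F (f σ) :=
  h.imp fun _ hs σ τ e => congrArg F (hs σ τ e)

theorem Gal1Aux.of_det {X Y : Type} {f : Γ → X} {g : Γ → Y} (h : FL Ω f)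
    (H : ∀ σ τ, f σ = f τ → g σ = g τ) : FL Ω g :=
  h.imp fun _ hs σ τ e => H σ τ (hs σ τ e)

theorem FL.prod {X Y : Type} {f : Γ → X} {g : Γ → Y} (h : FL Ω f) (h' : FL Ω g) :
    FL Ω fun σ => (f σ, g σ) := by
  classical
  obtain ⟨s, hs⟩ := h
  obtain ⟨t, ht⟩ := h'
  exact ⟨s ∪ t, fun σ τ e => Prod.ext (hs σ τ fun x hx => e x (Finset.mem_union_left _ hx))
    (ht σ τ fun x hx => e x (Finset.mem_union_right _ hx))⟩

theorem FL.pi {X I : Type} [Finite I] {f : Γ → I → X} (h : ∀ i, FL Ω fun σ => f σ i) :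
    FL Ω f := by
  classical
  have := Fintype.ofFinite I
  choose s hs using h
  exact ⟨Finset.univ.biUnion s, fun σ τ e => funext fun i => hs i σ τ fun x hx =>
    e x (Finset.mem_biUnion.2 ⟨i, Finset.mem_univ _, hx⟩)⟩

theorem FL.smul (x : Ω) : FL Ω fun σ : Γ => σ • x :=
  ⟨{x}, fun _ _ e => e x (Finset.mem_singleton_self x)⟩

theorem Gal1Aux.fl_vec {n : Type} [Finite n] (v : n → Ω) : FL Ω fun (σ : Γ) i => σ • v i :=
  FL.pi fun i => FL.smul (v i)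

theorem Gal1Aux.fl_mat {n : Type} [Finite n] (x : Matrix n n Ω) :
    FL Ω fun σ : Γ => x.map (sh σ) :=
  FL.pi fun i => Gal1Aux.fl_vec (x i)

theorem FL.gmap {n : Type} [Fintype n] [DecidableEq n] (g : GL n Ω) :
    FL Ω fun σ : Γ => gmap (sh σ) g :=
  Gal1Aux.of_det (Gal1Aux.fl_mat g.1) fun _ _ e => Units.ext e

theorem FL.amap (g : A0 Ω) : FL Ω fun σ : Γ => amap (sh σ) g :=
  Gal1Aux.of_det (FL.gmap g.1) fun _ _ e => Subtype.ext e

theorem FL.tmap (t : Tor Ω) : FL Ω fun σ : Γ => tmap (sh σ) t := by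
  refine Gal1Aux.of_det (Gal1Aux.fl_vec fun i => (t (.ofAdd (Pi.single i 1)) : Ω)) fun σ τ e =>
    MonoidHom.ext fun q => ?_
  have h : q = ∏ i, Multiplicative.ofAdd (Pi.single i 1 : QL) ^ q.toAdd i := by
    simp only [← ofAdd_zsmul, ← ofAdd_sum, ← pi_eq_sum_univ', ofAdd_toAdd]
  rw [h]
  simp only [map_prod, map_zpow]
  exact Finset.prod_congr rfl fun i _ => congrArg (· ^ _) (Units.ext (congrFun e i))

theorem FL.restrict {X : Type} {f : Γ → X} (h : FL Ω f) (Δ : Subgroup Γ) :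
    FL Ω fun σ : Δ => f σ :=
  h.imp fun _ hs σ τ e => hs σ τ e

/-- Pull-back along a compatible pair. -/
theorem FL.pull {Γ' Ω' X : Type} [Group Γ'] [Field Ω'] [MulSemiringAction Γ' Ω'] (r : Γ' →* Γ)
    (ι : Ω →+* Ω') (h : ∀ σ x, ι (r σ • x) = σ • ι x) {f : Γ → X} (hf : FL Ω f) :
    FL Ω' fun σ => f (r σ) := by
  classical
  obtain ⟨s, hs⟩ := hf
  exact ⟨s.image ι, fun σ τ e => hs _ _ fun x hx => ι.injective <| by
    rw [h, h, e _ (Finset.mem_image_of_mem _ hx)]⟩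

theorem FL.finite_range [Gd Γ Ω] {X : Type} {f : Γ → X} (h : FL Ω f) : (Set.range f).Finite := by
  obtain ⟨s, hs⟩ := h
  have : Nonempty X := ⟨f 1⟩
  have h1 : f.FactorsThrough fun (σ : Γ) (x : s) => σ • x.1 := fun σ τ e =>
    hs σ τ fun x hx => congrFun e ⟨x, hx⟩
  obtain ⟨F, hF⟩ := (Function.factorsThrough_iff _).1 h1
  refine ((Set.Finite.pi' fun x : s => Gd.fin (Γ := Γ) x.1).image F).subset ?_
  rintro _ ⟨σ, rfl⟩
  exact ⟨_, fun x => ⟨σ, rfl⟩, (congrFun hF σ).symm⟩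

theorem Gal1Aux.stable [Gd Γ Ω] (s : Finset Ω) : ∃ t : Finset Ω, ∀ x ∈ s, ∀ σ : Γ, σ • x ∈ t :=
  ⟨(s.finite_toSet.biUnion fun x _ => Gd.fin (Γ := Γ) x).toFinset, fun _ hx σ =>
    (Set.Finite.mem_toFinset _).2 (Set.mem_biUnion hx ⟨σ, rfl⟩)⟩

/-- `f (σ⁻¹)`, `f (g σ g')` have finite level. -/
theorem FL.inv [Gd Γ Ω] {X : Type} {f : Γ → X} (h : FL Ω f) : FL Ω fun σ => f σ⁻¹ := by
  obtain ⟨s, hs⟩ := h
  obtain ⟨t, ht⟩ := Gal1Aux.stable (Γ := Γ) s
  refine ⟨t, fun σ τ e => hs _ _ fun x hx => ?_⟩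
  rw [eq_inv_smul_iff, ← e _ (ht x hx _), smul_inv_smul]

theorem FL.mul [Gd Γ Ω] {X : Type} {f : Γ → X} (h : FL Ω f) (g g' : Γ) :
    FL Ω fun σ => f (g * σ * g') := by
  classical
  obtain ⟨s, hs⟩ := h
  refine ⟨s.image (g' • ·), fun σ τ e => hs _ _ fun x hx => ?_⟩
  simp only [mul_smul, e _ (Finset.mem_image_of_mem _ hx)]

theorem Opn.finiteIndex [Gd Γ Ω] {Δ : Subgroup Γ} (h : Opn Ω Δ) : Δ.FiniteIndex := by
  obtain ⟨s, hs⟩ := h
  have := Subgroup.finiteIndex_iInf' (s := s) (MulAction.stabilizer Γ) fun x _ => ⟨by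
    rw [MulAction.index_stabilizer]
    exact ((Set.ncard_pos (Gd.fin x)).2 ⟨x, MulAction.mem_orbit_self x⟩).ne'⟩
  exact Subgroup.finiteIndex_of_le (H := ⨅ x ∈ s, MulAction.stabilizer Γ x) fun σ hσ =>
    hs σ (by simpa [Subgroup.mem_iInf] using hσ)

theorem Opn.fl {Δ : Subgroup Γ} (h : Opn Ω Δ) [Gd Γ Ω] : FL Ω fun σ : Γ => σ ∈ Δ := by
  obtain ⟨s, hs⟩ := h
  refine ⟨s, fun σ τ e => propext ?_⟩
  beta_reduce
  rw [← Δ.mul_mem_cancel_right (hs (σ⁻¹ * τ) fun x hx => by rw [mul_smul, ← e x hx, inv_smul_smul]),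
    mul_inv_cancel_left]

namespace Gal1Aux

/-- A semilinear action from an action with injective unit. -/
def mk {V : Type} [AddCommGroup V] [Module Ω V] (a : Γ → V →+ V) (inj : ∀ v, a 1 v = 0 → v = 0)
    (mul : ∀ σ τ v, a (σ * τ) v = a σ (a τ v))
    (smul : ∀ (σ : Γ) (c : Ω) v, a σ (c • v) = (σ • c) • a σ v)
    (fl : ∀ v, FL Ω fun σ => a σ v) : SL Γ Ω V :=
  have one : ∀ v, a 1 v = v := fun v => sub_eq_zero.1 <| inj _ <| by
    rw [map_sub, ← mul, mul_one, sub_self]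
  ⟨a, one, mul, smul, fun v => (fl v).imp fun _ hs σ e =>
    (hs σ 1 fun x hx => (e x hx).trans (one_smul _ _).symm).trans (one v)⟩

theorem nat_pt [CharZero Ω] {I : Type} {q : MvPolynomial I Ω} (h : q ≠ 0) :
    ∃ c : I → ℕ, MvPolynomial.eval (fun i => (c i : Ω)) q ≠ 0 := by
  by_contra! H
  refine h (MvPolynomial.funext_set (fun _ => Set.range (Nat.cast : ℕ → Ω))
    (fun _ => Set.infinite_range_of_injective Nat.cast_injective) fun x hx => ?_)
  choose c hc using fun i => hx i (Set.mem_univ i)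
  rw [← funext hc, H, map_zero]

theorem fixed_sum {V I : Type} [AddCommGroup V] [Module Ω V] [Fintype I] (L : SL Γ Ω V)
    {w : I → V} (hw : ∀ i σ, L.a σ (w i) = w i) (c : I → ℕ) (σ : Γ) :
    L.a σ (∑ i, (c i : Ω) • w i) = ∑ i, (c i : Ω) • w i := by
  simp only [Nat.cast_smul_eq_nsmul, map_sum, map_nsmul, hw]

theorem map_map {n : Type} (x : Matrix n n Ω) (σ τ : Γ) :
    x.map (sh (σ * τ)) = (x.map (sh τ)).map (sh σ) :=
  Matrix.ext fun _ _ => mul_smul _ _ _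

theorem map_one {n : Type} (x : Matrix n n Ω) : x.map (sh (1 : Γ)) = x :=
  Matrix.ext fun _ _ => one_smul _ _

theorem map_smul {n : Type} (x : Matrix n n Ω) (σ : Γ) (c : Ω) :
    (c • x).map (sh σ) = (σ • c) • x.map (sh σ) :=
  Matrix.ext fun _ _ => smul_mul' _ _ _

theorem map_mulVec {n : Type} [Fintype n] (x : Matrix n n Ω) (σ : Γ) (v : n → Ω) :
    σ • x *ᵥ v = x.map (sh σ) *ᵥ σ • v :=
  funext fun i => RingHom.map_mulVec (sh σ) x v i

theorem smul_vec {n : Type} (σ : Γ) (c : Ω) (v : n → Ω) : σ • c • v = (σ • c) • σ • v :=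
  funext fun _ => smul_mul' _ _ _

theorem inv_val {n : Type} [Fintype n] [DecidableEq n] {U W : GL n Ω} {c : Ω} (hc : c ≠ 0)
    (h : U.1 = c • W.1) : (U⁻¹).1 = c⁻¹ • (W⁻¹).1 :=
  Units.inv_eq_of_mul_eq_one_right <| by
    rw [h, smul_mul_smul_comm, mul_inv_cancel₀ hc, one_smul, Units.mul_inv]

end Gal1Aux

section SL

variable [Gd Γ Ω] {V : Type} [AddCommGroup V] [Module Ω V]

/-- A stable subspace is spanned by its fixed vectors. -/
theorem SL.span (L : SL Γ Ω V) (W : Submodule Ω V) (hW : ∀ σ, ∀ v ∈ W, L.a σ v ∈ W) :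
    W ≤ Submodule.span Ω {v | v ∈ W ∧ ∀ σ, L.a σ v = v} := by
  intro v hv
  by_contra h
  obtain ⟨φ, h1, h2⟩ := Submodule.exists_dual_map_eq_bot_of_notMem h inferInstance
  obtain ⟨s, hs⟩ := L.fl v
  set N := fixingSubgroup Γ (s : Set Ω)
  have hN : ∀ σ, σ ∈ N ↔ ∀ x ∈ s, σ • x = x := fun σ => mem_fixingSubgroup_iff Γ
  have := Opn.finiteIndex (Δ := N) ⟨s, fun σ => (hN σ).2⟩
  have := Fintype.ofFinite (Γ ⧸ N)
  let χ : Γ ⧸ N → (FixedPoints.subfield N Ω →* Ω) := fun q =>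
    (sh q.out).toMonoidHom.comp (FixedPoints.subfield N Ω).subtype.toMonoidHom
  have hχ : Function.Injective χ := fun q q' e => by
    rw [← q.out_eq', ← q'.out_eq', QuotientGroup.eq, hN]
    intro x hx
    have : q.out • x = q'.out • x := DFunLike.congr_fun e ⟨x, fun σ => (hN σ).1 σ.2 x hx⟩
    rw [mul_smul, ← this, inv_smul_smul]
  have h3 : ∀ (c : FixedPoints.subfield N Ω) (g : Γ),
      L.a (g : Γ ⧸ N).out (c.1 • v) = L.a g (c.1 • v) := fun c g => by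
    obtain ⟨m, hm⟩ := QuotientGroup.mk_out_eq_mul N g
    rw [hm, L.mul, L.smul m, hs _ ((hN _).1 m.2), show m.1 • c.1 = c.1 from c.2 m]
  have h4 := Fintype.linearIndependent_iff.1 ((linearIndependent_monoidHom _ Ω).comp χ hχ)
    (fun q => φ (L.a q.out v)) ?_ ((1 : Γ) : Γ ⧸ N)
  · have h5 := h3 1 1
    simp only [OneMemClass.coe_one, one_smul, L.one] at h5
    exact h1 (h5 ▸ h4)
  funext c
  have h5 : φ (∑ q : Γ ⧸ N, L.a q.out (c.1 • v)) = 0 := by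
    rw [← Submodule.mem_bot Ω, ← h2]
    refine Submodule.mem_map_of_mem (Submodule.subset_span
      ⟨W.sum_mem fun q _ => hW _ _ (W.smul_mem _ hv), fun σ => ?_⟩)
    rw [map_sum]
    refine Fintype.sum_equiv (MulAction.toPerm σ) _ _ fun q => ?_
    rw [← L.mul, ← h3, MulAction.toPerm_apply, ← MulAction.Quotient.coe_smul_out, smul_eq_mul]
  rw [Pi.zero_apply, ← h5, map_sum, Finset.sum_apply]
  refine Finset.sum_congr rfl fun q _ => ?_
  rw [L.smul, map_smul, smul_eq_mul, mul_comm]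
  rfl

/-- A stable finite-dimensional subspace has a basis of fixed vectors; the fixed vectors are the
combinations with fixed coefficients. -/
theorem SL.exists_basis (L : SL Γ Ω V) (W : Submodule Ω V) [FiniteDimensional Ω W]
    (hW : ∀ σ, ∀ v ∈ W, L.a σ v ∈ W) :
    ∃ b : Module.Basis (Fin (Module.finrank Ω W)) Ω W, (∀ i σ, L.a σ (b i) = b i) ∧
      ∀ v : W, (∀ σ, L.a σ v = v) ↔ ∀ i (σ : Γ), σ • b.repr v i = b.repr v i := by
  have h : Submodule.span Ω {v : W | ∀ σ, L.a σ v = v} = ⊤ := by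
    refine Submodule.map_injective_of_injective W.injective_subtype ?_
    rw [Submodule.map_subtype_top, Submodule.map_span]
    refine le_antisymm (Submodule.span_le.2 ?_) ((L.span W hW).trans (Submodule.span_mono ?_))
    · rintro _ ⟨v, -, rfl⟩
      exact v.2
    · exact fun v hv => ⟨⟨v, hv.1⟩, hv.2, rfl⟩
  have h1 := Submodule.exists_fun_fin_finrank_span_eq Ω {v : W | ∀ σ, L.a σ v = v}
  rw [h, finrank_top] at h1
  obtain ⟨f, h1, h2, h3⟩ := h1
  have h4 : ∀ i σ, L.a σ (Module.Basis.mk h3 h2.ge i) = Module.Basis.mk h3 h2.ge i := fun i => by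
    rw [Module.Basis.mk_apply]
    exact h1 i
  refine ⟨_, h4, fun v => ?_⟩
  generalize Module.Basis.mk h3 h2.ge = b at h4
  rw [forall_comm]
  refine forall_congr' fun σ => ?_
  have h5 : L.a σ v = (b.equivFun.symm fun i => σ • b.repr v i : W) := by
    conv_lhs => rw [← b.sum_repr v]
    simp only [Submodule.coe_sum, Submodule.coe_smul, map_sum, L.smul, h4,
      Module.Basis.equivFun_symm_apply]
  rw [h5, Subtype.coe_inj, LinearEquiv.symm_apply_eq, funext_iff]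
  rfl

theorem Gal1Aux.dense [CharZero Ω] (L : SL Γ Ω V) (W : Submodule Ω V)
    (hW : ∀ σ, ∀ v ∈ W, L.a σ v ∈ W) (F : V → Ω)
    (hF : ∀ (m : ℕ) (w : Fin m → V), ∃ q : MvPolynomial (Fin m) Ω,
      ∀ c, MvPolynomial.eval c q = F (∑ i, c i • w i))
    (hp : ∃ v ∈ W, F v ≠ 0) : ∃ v ∈ W, (∀ σ, L.a σ v = v) ∧ F v ≠ 0 := by
  obtain ⟨v, hv, hp⟩ := hp
  obtain ⟨m, c, w, rfl⟩ := Submodule.mem_span_set'.1 (L.span W hW hv)
  obtain ⟨q, hq⟩ := hF m fun i => w i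
  obtain ⟨k, hk⟩ := Gal1Aux.nat_pt (q := q) fun e => hp (by rw [← hq, e, map_zero])
  exact ⟨_, W.sum_mem fun i _ => W.smul_mem _ (w i).2.1, Gal1Aux.fixed_sum L (fun i => (w i).2.2) k,
    hq _ ▸ hk⟩

/-- The fixed vectors are Zariski dense. -/
theorem SL.exists_fixed [CharZero Ω] {n : Type} [Fintype n] (L : SL Γ Ω (n → Ω))
    (W : Submodule Ω (n → Ω)) (hW : ∀ σ, ∀ v ∈ W, L.a σ v ∈ W) (p : MvPolynomial n Ω)
    (hp : ∃ v ∈ W, MvPolynomial.eval v p ≠ 0) :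
    ∃ v ∈ W, (∀ σ, L.a σ v = v) ∧ MvPolynomial.eval v p ≠ 0 :=
  Gal1Aux.dense L W hW (MvPolynomial.eval · p) (fun m w =>
    ⟨MvPolynomial.bind₁ (fun j => ∑ i, MvPolynomial.X i * MvPolynomial.C (w i j)) p, fun c => by
      rw [← MvPolynomial.coe_aeval_eq_eval, ← MvPolynomial.coe_aeval_eq_eval]
      refine (MvPolynomial.aeval_bind₁ _ _ _).trans (congrArg (MvPolynomial.aeval · p) ?_)
      funext j
      simp⟩) hp

/-- A fixed vector on which finitely many linear forms do not vanish. -/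
theorem SL.exists_fixed_ne [CharZero Ω] (L : SL Γ Ω V) (W : Submodule Ω V)
    (hW : ∀ σ, ∀ v ∈ W, L.a σ v ∈ W) {I : Type} [Finite I] (f : I → V →ₗ[Ω] Ω)
    (hf : ∀ i, ∃ v ∈ W, f i v ≠ 0) : ∃ v ∈ W, (∀ σ, L.a σ v = v) ∧ ∀ i, f i v ≠ 0 := by
  classical
  have := Fintype.ofFinite I
  have h : ∀ i, ∃ w, (w ∈ W ∧ ∀ σ, L.a σ w = w) ∧ f i w ≠ 0 := fun i => by
    by_contra! H
    obtain ⟨v, hv, h⟩ := hf i
    exact h ((Submodule.span_le (p := LinearMap.ker (f i))).2 H (L.span W hW hv))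
  choose w hw h using h
  obtain ⟨k, hk⟩ := Gal1Aux.nat_pt (q := ∏ i, ∑ j, MvPolynomial.X j * MvPolynomial.C (f i (w j)))
    (Finset.prod_ne_zero_iff.2 fun i _ e => h i (by
      simpa [Pi.single_apply] using congrArg (MvPolynomial.eval (Pi.single i 1)) e))
  refine ⟨_, W.sum_mem fun i _ => W.smul_mem _ (hw i).1, Gal1Aux.fixed_sum L (fun i => (hw i).2) k,
    fun i => ?_⟩
  rw [map_prod] at hk
  simpa using Finset.prod_ne_zero_iff.1 hk i (Finset.mem_univ i)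

/-- A fixed invertible matrix. -/
theorem SL.exists_fixed_det [CharZero Ω] {n : Type} [Fintype n] [DecidableEq n]
    (L : SL Γ Ω (Matrix n n Ω)) (W : Submodule Ω (Matrix n n Ω))
    (hW : ∀ σ, ∀ v ∈ W, L.a σ v ∈ W) (hp : ∃ v ∈ W, v.det ≠ 0) :
    ∃ v ∈ W, (∀ σ, L.a σ v = v) ∧ v.det ≠ 0 :=
  Gal1Aux.dense L W hW det (fun m w =>
    ⟨det (of fun j k => ∑ i, MvPolynomial.X i * MvPolynomial.C (w i j k)), fun c => by
      rw [RingHom.map_det]
      congr 1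
      ext j k
      simp [Matrix.sum_apply]⟩) hp

end SL

section Speiser

variable [Gd Γ Ω] {n : Type} [Fintype n] [DecidableEq n]

theorem speiser {A : Γ → GL n Ω} (h : FL Ω A) (hA : ∀ σ τ, A (σ * τ) = A σ * gmap (sh σ) (A τ)) :
    ∃ P : GL n Ω, ∀ σ, A σ * gmap (sh σ) P = P := by
  let L : SL Γ Ω (n → Ω) := Gal1Aux.mk
    (fun σ => ((A σ).1.mulVecLin.toAddMonoidHom.comp (DistribSMul.toAddMonoidHom _ σ)))
    (fun v e => mulVec_injective_iff_isUnit.2 (A 1).isUnit (by simpa using e))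
    (fun σ τ v => by simp [hA, Gal1Aux.map_mulVec, mul_smul])
    (fun σ c v => by simp [Gal1Aux.smul_vec])
    fun v => (h.prod (Gal1Aux.fl_vec v)).comp fun p => p.1.1 *ᵥ p.2
  obtain ⟨b, hb, -⟩ := L.exists_basis ⊤ fun _ _ _ => trivial
  let e : n ≃ Fin (Module.finrank Ω (⊤ : Submodule Ω (n → Ω))) :=
    Fintype.equivFinOfCardEq (by simp)
  obtain ⟨P, hP⟩ := (linearIndependent_cols_iff_isUnit (A := of fun i j => (b (e j)).1 i)).1
    ((b.linearIndependent.comp e e.injective).map' (⊤ : Submodule Ω (n → Ω)).subtype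
      (Submodule.ker_subtype _))
  refine ⟨P, fun σ => Units.ext (Matrix.ext fun i j => ?_)⟩
  rw [Units.val_mul, gmap_val, hP]
  exact congrFun (hb (e j) σ) i

theorem hilbert90 {b : Γ → Ω} (h : FL Ω b) (h0 : ∀ σ, b σ ≠ 0)
    (hb : ∀ σ τ, b (σ * τ) = b σ * σ • b τ) : ∃ x : Ω, x ≠ 0 ∧ ∀ σ, b σ * σ • x = x := by
  let L : SL Γ Ω Ω := Gal1Aux.mk
    (fun σ => (AddMonoidHom.mulLeft (b σ)).comp (DistribSMul.toAddMonoidHom _ σ))
    (fun v e => by simpa [h0] using e) (fun σ τ v => by simp [hb, mul_smul, mul_assoc])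
    (fun σ c v => by simp [mul_left_comm]) fun v => (h.prod (FL.smul v)).comp fun p => p.1 * p.2
  by_contra! H
  refine one_ne_zero ((Submodule.span_le (p := ⊥)).2 (fun x hx => ?_)
    (L.span ⊤ (fun _ _ _ => trivial) (Submodule.mem_top (x := (1 : Ω)))))
  by_contra h1
  obtain ⟨σ, h2⟩ := H x h1
  exact h2 (hx.2 σ)

theorem PCoc.coc2 [Nonempty n] {A : Γ → GL n Ω} {c : Γ → Γ → Ω} (h : PCoc A c) : Coc2 c := by
  have h0 : ∀ {σ} {x y : Ω}, x • (A σ).1 = y • (A σ).1 → x = y := fun e =>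
    smul_left_injective Ω (Units.ne_zero _) e
  refine ⟨?_, ?_, fun σ τ e => (A σ * gmap (sh σ) (A τ)).ne_zero (by rw [h.2, e, zero_smul]),
    fun σ τ υ => h0 (σ := σ * τ * υ) ?_⟩
  · have := h.1.finite_range.to_subtype
    have h1 : FL Ω fun σ τ => A (σ * τ) := by
      obtain ⟨s, hs⟩ := h.1
      obtain ⟨t, ht⟩ := Gal1Aux.stable (Γ := Γ) s
      exact ⟨t, fun σ σ' e => funext fun τ => hs _ _ fun x hx => by
        rw [mul_smul, mul_smul, e _ (ht x hx τ)]⟩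
    refine Gal1Aux.of_det (h.1.prod (h1.prod (FL.pi fun g : Set.range A => FL.gmap g.1)))
      fun σ σ' e => funext fun τ => h0 (σ := σ * τ) ?_
    simp only [Prod.mk.injEq, funext_iff] at e
    rw [← h.2, e.1, e.2.1, e.2.2 ⟨_, τ, rfl⟩, h.2]
  · obtain ⟨s, hs⟩ := h.1
    refine ⟨s, fun τ τ' e => funext fun σ => h0 (σ := σ * τ) ?_⟩
    rw [← h.2, hs τ τ' e, h.2, hs (σ * τ) (σ * τ') fun x hx => by rw [mul_smul, mul_smul, e x hx]]
  · have h1 := h.2
    simp only [Units.val_mul, gmap_val] at h1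
    rw [mul_smul, ← h1, ← smul_mul_assoc, ← h1, mul_smul, mul_assoc σ, ← h1, ← mul_smul_comm,
      ← Gal1Aux.map_smul, ← h1, Matrix.map_mul, Gal1Aux.map_map, mul_assoc]

theorem PCoc.cob2_pow [Nonempty n] {A : Γ → GL n Ω} {c : Γ → Γ → Ω} (h : PCoc A c) :
    Cob2 (c ^ Fintype.card n) :=
  ⟨fun σ => (A σ).1.det, h.1.comp fun g => g.1.det, fun σ => (A σ).det_ne_zero, fun σ τ => by
    have := congrArg det (h.2 σ τ)
    rw [Units.val_mul, det_mul, det_smul, gmap_val] at this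
    exact this.symm.trans (congrArg _ ((sh σ).map_det _).symm)⟩

/-- A stable line splits the factor system. -/
theorem PCoc.cob2_of_line {A : Γ → GL n Ω} {c : Γ → Γ → Ω} (h : PCoc A c) {l : n → Ω}
    (hl : l ≠ 0) (hs : ∀ σ, ∃ b : Ω, (A σ).1 *ᵥ (fun i => σ • l i) = b • l) : Cob2 c := by
  choose b hb using hs
  have h0 := smul_left_injective Ω hl
  replace hb : ∀ σ, (A σ).1 *ᵥ σ • l = b σ • l := hb
  refine ⟨b, Gal1Aux.of_det (h.1.prod (Gal1Aux.fl_vec l)) fun σ τ e => h0 ?_, fun σ e => hl ?_,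
    fun σ τ => h0 ?_⟩
  · exact (hb σ).symm.trans ((congrArg (fun p : GL n Ω × (n → Ω) => p.1.1 *ᵥ p.2) e).trans (hb τ))
  · rw [← smul_eq_zero_iff_eq σ]
    exact mulVec_injective_iff_isUnit.2 (A σ).isUnit (by rw [hb, e, zero_smul, mulVec_zero])
  · beta_reduce
    rw [mul_smul, ← hb, ← smul_mulVec, ← h.2, Units.val_mul, gmap_val, ← mulVec_mulVec, mul_smul,
      ← Gal1Aux.map_mulVec, hb, Gal1Aux.smul_vec, mulVec_smul, hb, smul_smul, mul_comm]

/-- A zero divisor in degree `3` splits the factor system. -/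
theorem PCoc.cob2_of_det {A : Γ → GL (Fin 3) Ω} {c : Γ → Γ → Ω} (h : PCoc A c)
    {x : Matrix (Fin 3) (Fin 3) Ω} (hx : x ∈ DAlg A) (h0 : x ≠ 0) (hd : x.det = 0) : Cob2 c := by
  have key : ∀ W : Submodule Ω (Fin 3 → Ω), Module.finrank Ω W = 1 →
      (∀ σ, ∀ v ∈ W, (A σ).1 *ᵥ σ • v ∈ W) → Cob2 c := fun W h1 h2 => by
    obtain ⟨l, hl, H⟩ := finrank_eq_one_iff'.1 h1
    refine h.cob2_of_line (l := l.1) (fun e => hl (Subtype.ext e)) fun σ => ?_
    obtain ⟨b, hb⟩ := H ⟨_, h2 σ _ l.2⟩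
    exact ⟨b, (congrArg Subtype.val hb).symm⟩
  have h1 : ∀ σ v, (A σ).1 *ᵥ σ • x *ᵥ v = x *ᵥ (A σ).1 *ᵥ σ • v := fun σ v => by
    rw [Gal1Aux.map_mulVec, mulVec_mulVec, hx σ, mulVec_mulVec]
  have h2 := x.mulVecLin.finrank_range_add_finrank_ker
  have h3 : Module.finrank Ω (LinearMap.range x.mulVecLin) ≠ 0 := by
    rw [Ne, Submodule.finrank_eq_zero, LinearMap.range_eq_bot]
    exact fun e => h0 (toLin'.injective (e.trans (map_zero _).symm))
  have h4 : Module.finrank Ω (LinearMap.ker x.mulVecLin) ≠ 0 := by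
    rw [Ne, Submodule.finrank_eq_zero, ← Ne, Submodule.ne_bot_iff]
    obtain ⟨v, hv, e⟩ := exists_mulVec_eq_zero_iff.2 hd
    exact ⟨v, e, hv⟩
  rw [Module.finrank_fin_fun] at h2
  by_cases h5 : Module.finrank Ω (LinearMap.ker x.mulVecLin) = 1
  · refine key _ h5 fun σ v hv => ?_
    rw [LinearMap.mem_ker, mulVecLin_apply] at hv ⊢
    rw [← h1, hv, smul_zero, mulVec_zero]
  · refine key (LinearMap.range x.mulVecLin) (by omega) ?_
    rintro σ _ ⟨v, rfl⟩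
    exact ⟨_, (h1 σ v).symm⟩

/-- Projective cocycles of the same degree with equivalent factor systems are equivalent. -/
theorem PCoc.equiv [CharZero Ω] {A A' : Γ → GL n Ω} {c c' : Γ → Γ → Ω} (h : PCoc A c)
    (h' : PCoc A' c') (hc : Cob2 (c / c')) : ∃ (P : GL n Ω) (b : Γ → Ω), FL Ω b ∧
      (∀ σ, b σ ≠ 0) ∧ ∀ σ, (A σ * gmap (sh σ) P).1 = b σ • (P * A' σ).1 := by
  obtain ⟨b, hb, h0, hc⟩ := hc
  have hc' : ∀ σ τ, c' σ τ ≠ 0 := fun σ τ e => by
    have := hc σ τ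
    rw [Pi.div_apply, Pi.div_apply, e, div_zero, zero_mul] at this
    exact mul_ne_zero (h0 σ) ((smul_ne_zero_iff_ne σ).2 (h0 τ)) this.symm
  let L : SL Γ Ω (Matrix n n Ω) := Gal1Aux.mk
    (fun σ => AddMonoidHom.mk' (fun x => (b σ)⁻¹ • ((A σ).1 * x.map (sh σ) * ((A' σ)⁻¹).1))
      fun x y => by rw [Matrix.map_add _ (map_add _), mul_add, add_mul, smul_add])
    (fun v e => by
      simpa only [AddMonoidHom.mk'_apply, smul_eq_zero, inv_eq_zero, h0, false_or,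
        Gal1Aux.map_one, Units.mul_left_eq_zero, Units.mul_right_eq_zero] using e)
    (fun σ τ v => by
      have h1 := h.2 σ τ
      have h2 := Gal1Aux.inv_val (hc' σ τ) (h'.2 σ τ)
      rw [_root_.mul_inv_rev, ← map_inv] at h2
      simp only [Units.val_mul, gmap_val] at h1 h2
      simp only [AddMonoidHom.mk'_apply, Gal1Aux.map_smul, Matrix.map_mul, mul_smul_comm,
        smul_mul_assoc, ← mul_assoc, h1, Gal1Aux.map_map]
      simp only [mul_assoc, h2, mul_smul_comm, smul_smul, smul_inv'']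
      congr 1
      have h3 := hc σ τ
      have := h0 σ
      have := h0 (σ * τ)
      have := (smul_ne_zero_iff_ne σ).2 (h0 τ)
      have := hc' σ τ
      simp only [Pi.div_apply] at h3
      field_simp at h3 ⊢
      exact h3.symm)
    (fun σ c v => by
      simp only [AddMonoidHom.mk'_apply, Gal1Aux.map_smul, mul_smul_comm, smul_mul_assoc]
      exact smul_comm _ _ _)
    fun v => (hb.prod (h.1.prod (h'.1.prod (Gal1Aux.fl_mat v)))).comp
      fun p => p.1⁻¹ • (p.2.1.1 * p.2.2.2 * (p.2.2.1⁻¹).1)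
  obtain ⟨x, -, h1, h2⟩ := L.exists_fixed_det ⊤ (fun _ _ _ => trivial) ⟨1, trivial, by simp⟩
  refine ⟨GeneralLinearGroup.mkOfDetNeZero x h2, b, hb, h0, fun σ => ?_⟩
  have h3 : (b σ)⁻¹ • ((A σ).1 * x.map (sh σ) * ((A' σ)⁻¹).1) = x := h1 σ
  rw [inv_smul_eq_iff₀ (h0 σ), Units.mul_inv_eq_iff_eq_mul, smul_mul_assoc] at h3
  exact h3

theorem Cob2.mul {c c' : Γ → Γ → Ω} (h : Cob2 c) (h' : Cob2 c') : Cob2 (c * c') := by
  obtain ⟨b, h1, h2, h3⟩ := h
  obtain ⟨b', h1', h2', h3'⟩ := h'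
  refine ⟨_, (h1.prod h1').comp fun p => p.1 * p.2, fun σ => mul_ne_zero (h2 σ) (h2' σ),
    fun σ τ => ?_⟩
  simp only [Pi.mul_apply, smul_mul']
  rw [mul_mul_mul_comm, h3, h3', mul_mul_mul_comm]

theorem Cob2.inv {c : Γ → Γ → Ω} (h : Cob2 c) : Cob2 c⁻¹ := by
  obtain ⟨b, h1, h2, h3⟩ := h
  exact ⟨_, h1.comp (·⁻¹), fun σ => inv_ne_zero (h2 σ), fun σ τ => by
    simp only [Pi.inv_apply, smul_inv'', ← mul_inv, h3]⟩

theorem Cob2.pow {c : Γ → Γ → Ω} (h : Cob2 c) (m : ℕ) : Cob2 (c ^ m) := by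
  induction m with
  | zero => exact ⟨_, FL.const 1, fun _ => one_ne_zero, fun _ _ => by simp⟩
  | succ m ih => exact pow_succ c m ▸ ih.mul h

theorem Gal1Aux.zpow {c : Γ → Γ → Ω} (h : Cob2 c) (m : ℤ) : Cob2 (c ^ m) := by
  cases m with
  | ofNat m => exact zpow_natCast c m ▸ h.pow m
  | negSucc m => exact zpow_negSucc c m ▸ (h.pow _).inv

theorem Cob2.of_coprime {c : Γ → Γ → Ω} {m m' : ℕ} (h : Cob2 (c ^ m)) (h' : Cob2 (c ^ m'))
    (hm : Nat.Coprime m m') : Cob2 c := by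
  rcases eq_or_ne m 0 with rfl | h0
  · rwa [(Nat.coprime_zero_left _).1 hm, pow_one] at h'
  have h1 := (Gal1Aux.zpow h (m.gcdA m')).mul (Gal1Aux.zpow h' (m.gcdB m'))
  obtain ⟨b, -, h2, h3⟩ := h
  refine (?_ : _ = c) ▸ h1
  funext σ τ
  have h4 : c σ τ ≠ 0 := fun e => by
    have := h3 σ τ
    rw [Pi.pow_apply, Pi.pow_apply, e, zero_pow h0, zero_mul] at this
    exact mul_ne_zero (h2 σ) ((smul_ne_zero_iff_ne σ).2 (h2 τ)) this.symm
  simp only [Pi.mul_apply, Pi.pow_apply, ← zpow_natCast, ← _root_.zpow_mul]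
  rw [← zpow_add₀ h4, ← Nat.gcd_eq_gcd_ab, hm.gcd_eq_one, Nat.cast_one, zpow_one]

theorem Cob2.pull {Γ' Ω' : Type} [Group Γ'] [Field Ω'] [MulSemiringAction Γ' Ω'] (r : Γ' →* Γ)
    (ι : Ω →+* Ω') (h : ∀ σ x, ι (r σ • x) = σ • ι x) {c : Γ → Γ → Ω} (hc : Cob2 c) :
    Cob2 fun σ τ => ι (c (r σ) (r τ)) := by
  obtain ⟨b, h1, h2, h3⟩ := hc
  exact ⟨_, (h1.pull r ι h).comp ι, fun σ => (map_ne_zero ι).2 (h2 _), fun σ τ => by
    simp only [← h, ← map_mul ι, map_mul r, h3]⟩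

end Speiser

/-- Specialisation: finitely many elements of an extension of an algebraically closed field lie in
a subalgebra that has a point. -/
theorem exists_spec {F E : Type} [Field F] [IsAlgClosed F] [Field E] [Algebra F E]
    (s : Finset E) : ∃ (A : Subalgebra F E), (∀ x ∈ s, x ∈ A) ∧ Nonempty (A →ₐ[F] F) := by
  refine ⟨Algebra.adjoin F s, fun x hx => Algebra.subset_adjoin hx, ?_⟩
  have : Algebra.FiniteType F (Algebra.adjoin F (s : Set E)) :=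
    (Subalgebra.fg_iff_finiteType _).1 (Subalgebra.fg_adjoin_finset s)
  obtain ⟨m, hm⟩ := Ideal.exists_maximal (Algebra.adjoin F (s : Set E))
  let := Ideal.Quotient.field m
  have := finite_of_finite_type_of_isJacobsonRing F (_ ⧸ m)
  exact ⟨IsAlgClosed.lift.comp (Ideal.Quotient.mkₐ F m)⟩

end Pool.Agent.P.MP_3c2f8c_gt.E6
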