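import Pool.Agent.P.MP_3c2f8c_gt.E6.Lie

/-!
The split Lie algebra of type `E₆` over `ℤ` in the model `sl₃³ ⊕ W ⊕ W*`, `W = 3 ⊗ 3 ⊗ 3`, its
roots, its `27`-dimensional representation and some automorphisms.
-/

namespace Pool.Agent.P.MP_3c2f8c_gt.E6

open Matrix

/-- Triples of indices. -/
abbrev T3 : Type := Fin 3 × Fin 3 × Fin 3

/-- The `72` roots: `inl (a, i, s)` is `E_{i, jj i s}` in the factor `a`; `inr (true, p)` is the
weight `e_p` of `W` and `inr (false, p)` the weight `f_p` of `W*`. -/
abbrev Rt : Type := (Fin 3 × Fin 3 × Fin 2) ⊕ (Bool × T3)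

/-- The basis of the Lie algebra: the six simple coroots and the root vectors. -/
abbrev Ix : Type := Fin 6 ⊕ Rt

instance instDecEqT3 : DecidableEq T3 := inferInstance
instance instFintypeT3 : Fintype T3 := inferInstance
instance instDecEqRt : DecidableEq Rt := inferInstance
instance instFintypeRt : Fintype Rt := inferInstance
instance instDecEqIx : DecidableEq Ix := inferInstance
instance instFintypeIx : Fintype Ix := inferInstance

/-- The root lattice in the basis of simple roots. -/
abbrev QL : Type := Fin 6 → ℤ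

def jj (i : Fin 3) (s : Fin 2) : Fin 3 := if s = 0 then i + 1 else i + 2

/-- The root of the matrix unit `E_{ij}` (`i ≠ j`) in the factor `a`. -/
def rA (a i j : Fin 3) : Rt := .inl (a, i, if j = i + 1 then 0 else 1)

def dl (i j : Fin 3) : ℤ := if i = j then 1 else 0

def sg (b : Bool) : ℤ := if b then 1 else -1

/-- The entry of `p` in slot `a`. -/
def sl (p : T3) (a : Fin 3) : Fin 3 := if a = 0 then p.1 else if a = 1 then p.2.1 else p.2.2

/-- Change the entry of `p` in slot `a`. -/
def st (p : T3) (a i : Fin 3) : T3 :=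
  if a = 0 then (i, p.2) else if a = 1 then (p.1, i, p.2.2) else (p.1, p.2.1, i)

/-- The sign `ε_{i, j, -i-j}`. -/
def ep (i j : Fin 3) : ℤ := if j = i + 1 then 1 else if j = i + 2 then -1 else 0

/-- A lift of the root to `ℤ⁹`. -/
def rz : Rt → Fin 3 → Fin 3 → ℤ
  | .inl (b, p, s), a, i => if a = b then dl i p - dl i (jj p s) else 0
  | .inr (b, p), a, i => sg b * dl i (sl p a)

/-- The degree for the grading modulo `3`. -/
def dg : Rt → ℤ
  | .inl _ => 0
  | .inr (b, _) => sg b

/-- The inner product of two roots. -/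
def pr : Rt → Rt → ℤ
  | .inl (a, i, s), β => rz β a i - rz β a (jj i s)
  | .inr (b, p), β => sg b * (rz β 0 p.1 + rz β 1 p.2.1 + rz β 2 p.2.2 - dg β)

/-- The negative root. -/
def ng : Rt → Rt
  | .inl (a, i, s) => rA a (jj i s) i
  | .inr (b, p) => .inr (!b, p)

/-- The simple roots, in the numbering of `CartanMatrix.E₆`. -/
def sr : Fin 6 → Rt :=
  ![rA 1 0 1, rA 0 1 0, rA 1 1 2, .inr (true, 0, 2, 2), rA 2 1 2, rA 2 0 1]

/-- The coordinates of a root in the basis of simple roots. -/
def rv (α : Rt) : QL :=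
  ![rz α 1 0 - rz α 0 2, rz α 0 1 - rz α 0 2, dg α - rz α 1 2 - 2 * rz α 0 2, dg α - 3 * rz α 0 2,
    dg α - rz α 2 2 - 2 * rz α 0 2, rz α 2 0 - rz α 0 2]

/-- The sum of two roots with inner product `-1`. -/
def ad2 : Rt → Rt → Rt
  | .inl (a, i, s), .inl (_, k, t) => if jj i s = k then rA a i (jj k t) else rA a k (jj i s)
  | .inl (a, i, s), .inr (b, p) => .inr (b, st p a (if b then i else jj i s))
  | .inr (b, p), .inl (a, i, s) => .inr (b, st p a (if b then i else jj i s))
  | .inr (b, p), .inr (c, q) =>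
    if b = c then .inr (!b, -p.1 - q.1, -p.2.1 - q.2.1, -p.2.2 - q.2.2) else
      let a : Fin 3 := if p.1 ≠ q.1 then 0 else if p.2.1 ≠ q.2.1 then 1 else 2
      if b then rA a (sl p a) (sl q a) else rA a (sl q a) (sl p a)

/-- The sign in `[e_α, e_β] = nN α β • e_(α+β)`; zero unless `α + β` is a root. -/
def nN (α β : Rt) : ℤ :=
  if pr α β = -1 then
    match α, β with
    | .inl (_, i, s), .inl (_, k, _) => if jj i s = k then 1 else -1
    | .inl _, .inr (b, _) => sg b
    | .inr (b, _), .inl _ => -sg b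
    | .inr (b, p), .inr (c, q) =>
      if b = c then sg b * (ep p.1 q.1 * ep p.2.1 q.2.1 * ep p.2.2 q.2.2) else sg b
  else 0

/-- The reflection in the root `α`. -/
def rf (α β : Rt) : Rt :=
  if pr α β = -1 then ad2 α β else if pr α β = 1 then ad2 (ng α) β else
    if pr α β = 0 then β else ng β

/-- The structure constants over `ℤ`. -/
def bz : Tens Ix ℤ
  | .inl _, .inl _, _ => 0
  | .inl i, .inr α, k => if k = .inr α then pr α (sr i) else 0
  | .inr α, .inl i, k => if k = .inr α then -pr α (sr i) else 0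
  | .inr α, .inr β, .inl i => if β = ng α then rv α i else 0
  | .inr α, .inr β, .inr γ => if γ = ad2 α β then nN α β else 0

/-- The pairing of the weight `(a, i, j) = ε_{a,i} - ε_{a+1,j}` of the `27`-dimensional
representation with a root. -/
def wp (μ : T3) (α : Rt) : ℤ := rz α μ.1 μ.2.1 - rz α (μ.1 + 1) μ.2.2

/-- The weight `μ + α` when `wp μ α = -1`. -/
def act : Rt → T3 → T3
  | .inl (b, p, s), (a, i, j) => if a = b then (a, p, j) else (a, i, jj p s)
  | .inr (true, p), (a, i, _) => (a + 2, sl p (a + 2), -sl p a - i)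
  | .inr (false, p), (a, _, j) => (a + 1, -sl p (a + 1) - j, sl p (a + 2))

/-- The coefficient in `ρ(e_α) v_μ = cf α μ • v_(act α μ)`; zero unless `wp μ α = -1`. -/
def cf (α : Rt) (μ : T3) : ℤ :=
  if wp μ α = -1 then
    match α with
    | .inl (b, _, _) => if μ.1 = b then 1 else -1
    | .inr (true, p) => ep (sl p μ.1) μ.2.1
    | .inr (false, p) => -ep (sl p (μ.1 + 1)) μ.2.2
  else 0

/-- The `27`-dimensional representation on the basis. -/
def rhoB : Ix → T3 → T3 → ℤ
  | .inl i, ν, μ => if ν = μ then wp μ (sr i) else 0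
  | .inr α, ν, μ => if ν = act α μ then cf α μ else 0

/-- The opposite index: `h ↦ h`, `e_α ↦ e_(-α)`. -/
def ngI : Ix → Ix := Sum.map id ng

/-- The exchange of the factors `1` and `2` on roots. -/
def swR : Rt → Rt
  | .inl (a, p) => .inl (-a, p)
  | .inr (b, p) => .inr (b, p.1, p.2.2, p.2.1)

/-- The exchange of the factors `1` and `2` on the basis. -/
def swI : Ix → Ix := Sum.map ![5, 1, 4, 3, 2, 0] swR

/-- The isometries of the root system. -/
def RA : Subgroup (Equiv.Perm Rt) where
  carrier := {π | ∀ α β, pr (π α) (π β) = pr α β}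
  one_mem' := fun _ _ => rfl
  mul_mem' := fun {π π'} h h' α β => by rw [Equiv.Perm.mul_apply, Equiv.Perm.mul_apply, h, h']
  inv_mem' := fun {π} h α β => by
    rw [← h]
    simp

/-- The linear extension of a permutation of the roots to the root lattice. -/
def lw (π : Equiv.Perm Rt) : QL →+ QL where
  toFun q := ∑ i, q i • rv (π (sr i))
  map_zero' := by simp
  map_add' q q' := by simp [add_smul, Finset.sum_add_distrib]

/-- Characters of the root lattice with values in `B`: the points of the adjoint torus. -/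
abbrev TorB (B : Type) [CommGroup B] : Type := Multiplicative QL →* B

/-- The action of the isometries on the torus. -/
def tw {B : Type} [CommGroup B] (π : RA) (t : TorB B) : TorB B :=
  t.comp (AddMonoidHom.toMultiplicative (lw (π⁻¹ : RA).1))

/-- The value of a root. -/
def rt {B : Type} [CommGroup B] (t : TorB B) (α : Rt) : B := t (Multiplicative.ofAdd (rv α))

section Ring

variable (R : Type) [CommRing R] {S : Type} [CommRing S]

/-- The split algebra over `R`. -/
def b0 : Tens Ix R := bc (Int.castRingHom R) bz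

/-- Its automorphism group. -/
abbrev A0 : Type := AutL (b0 R)

/-- The torus over `R`. -/
abbrev Tor : Type := TorB Rˣ

variable {R}

theorem bc_b0 (φ : R →+* S) : bc φ (b0 R) = b0 S := by
  funext i j k
  simp [bc, b0]

/-- Change of ring for automorphisms of the split algebra. -/
def amap (φ : R →+* S) : A0 R →* A0 S :=
  ((gmap φ).comp (AutL (b0 R)).subtype).codRestrict _ fun g => by
    have h := IsoL.map φ g.2
    rwa [bc_b0] at h

theorem amap_val (φ : R →+* S) (g : A0 R) : (amap φ g).1 = gmap φ g.1 := rfl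

/-- Change of ring for the torus. -/
def tmap (φ : R →+* S) (t : Tor R) : Tor S := (Units.map φ.toMonoidHom).comp t

/-- The action of an automorphism on a vector. -/
abbrev ap (g : A0 R) (x : Ix → R) : Ix → R := g.1.1 *ᵥ x

/-- The root vector. -/
abbrev eR (α : Rt) : Ix → R := Pi.single (Sum.inr α) 1

/-- The element of the Cartan subalgebra with coordinates `c` in the basis of simple coroots. -/
def hC (c : Fin 6 → R) : Ix → R := Sum.elim c 0

/-- The coroot. -/
def hR (α : Rt) : Ix → R := hC fun i => (rv α i : R)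

/-- The value of the root `α` on the Cartan component of `x`. -/
def rval (α : Rt) (x : Ix → R) : R := ∑ i, x (.inl i) * (pr α (sr i) : R)

/-- The value of the weight `μ` on the Cartan component of `x`. -/
def wval (μ : T3) (x : Ix → R) : R := ∑ i, x (.inl i) * (wp μ (sr i) : R)

/-- The element `diag(1, 3, -4)` of the first factor. -/
def h0 : Ix → R := hC ![4, 7, 8, 12, 8, 4]

/-- The `27`-dimensional representation. -/
def rho (x : Ix → R) : Matrix T3 T3 R := Matrix.of fun ν μ => ∑ i, x i * (rhoB i ν μ : R)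

/-- `A` induces `g` on the Lie algebra. -/
def Lift (g : A0 R) (A : GL T3 R) : Prop := ∀ x, A.1 * rho x = rho (ap g x) * A.1

variable (R) in
/-- The inner automorphisms: those that fix the class of the `27`-dimensional representation. -/
def Inn : Subgroup (A0 R) where
  carrier := {g | ∃ A, Lift g A}
  one_mem' := ⟨1, fun x => by simp [ap]⟩
  mul_mem' := by
    rintro g h ⟨A, hA⟩ ⟨B, hB⟩
    refine ⟨A * B, fun x => ?_⟩
    rw [Units.val_mul, Matrix.mul_assoc, hB, ← Matrix.mul_assoc, hA, Matrix.mul_assoc, ap, ap,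
      mulVec_mulVec]
    rfl
  inv_mem' := by
    rintro g ⟨A, hA⟩
    refine ⟨A⁻¹, fun x => ?_⟩
    have h := hA (ap g⁻¹ x)
    have e : ap g (ap g⁻¹ x) = x := by
      rw [ap, ap, mulVec_mulVec, ← Units.val_mul, ← Subgroup.coe_mul, mul_inv_cancel]
      simp
    rw [e] at h
    calc (A⁻¹).1 * rho x = (A⁻¹).1 * (rho x * A.1) * (A⁻¹).1 := by
          rw [Matrix.mul_assoc, Matrix.mul_assoc, ← Units.val_mul, mul_inv_cancel]; simp
      _ = rho (ap g⁻¹ x) * (A⁻¹).1 := by
          rw [← h, ← Matrix.mul_assoc, ← Units.val_mul, inv_mul_cancel]; simp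

variable (R) in
/-- The Chevalley involution `h ↦ -h`, `e_α ↦ -e_(-α)`. -/
noncomputable def io0 : A0 R := pick fun u => ∀ x i, ap u x i = -x (ngI i)

variable (R) in
/-- The exchange of the factors `1` and `2`; it is the pinned diagram automorphism. -/
noncomputable def s23 : A0 R := pick fun u => ∀ x i, ap u x i = x (swI i)

/-- The automorphism given by a point of the torus. -/
noncomputable def tor (t : Tor R) : A0 R :=
  pick fun u => ∀ x, (∀ i, ap u x (.inl i) = x (.inl i)) ∧
    ∀ α, ap u x (.inr α) = (rt t α : Rˣ) * x (.inr α)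

/-- `g` permutes the root spaces according to `π`. -/
def IsMon (g : A0 R) (π : RA) : Prop := ∀ α, ∃ c : Rˣ, ap g (eR α) = (c : R) • eR (π.1 α)

/-- All root values are distinct and different from `1`. -/
def SReg (t : Tor R) : Prop := Function.Injective (rt t) ∧ ∀ α, rt t α ≠ 1

variable [Algebra ℚ R]

/-- The root element `exp (c ad e_α)`. -/
noncomputable def xr (α : Rt) (c : R) : A0 R := ex (b0 R) (c • eR α)

variable (R) in
/-- The lift `exp(e_α) exp(-e_(-α)) exp(e_α)` of the reflection. -/
noncomputable def nn (α : Rt) : A0 R := xr α 1 * xr (ng α) (-1) * xr α 1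

end Ring

section Field

variable {F : Type} [Field F] {n : Type} [Fintype n] [DecidableEq n]

/-- An invertible matrix as an element of `GL`. -/
noncomputable def toGL (M : Matrix n n F) : GL n F := pick fun u => u.1 = M

/-- The inverse transpose. -/
def itr (g : GL n F) : GL n F :=
  ⟨(g⁻¹).1ᵀ, g.1ᵀ, by rw [← transpose_mul, ← Units.val_mul, mul_inv_cancel]; simp,
    by rw [← transpose_mul, ← Units.val_mul, inv_mul_cancel]; simp⟩

/-- The diagonal entries of the three traceless matrices of `x`. -/
def dgm (x : Ix → F) : Fin 3 → Fin 3 → F :=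
  ![![2 * x (.inl 3) / 3 - x (.inl 1), x (.inl 1) - x (.inl 3) / 3, -(x (.inl 3) / 3)],
    ![x (.inl 0) - x (.inl 3) / 3, x (.inl 2) - x (.inl 0) - x (.inl 3) / 3,
      2 * x (.inl 3) / 3 - x (.inl 2)],
    ![x (.inl 5) - x (.inl 3) / 3, x (.inl 4) - x (.inl 5) - x (.inl 3) / 3,
      2 * x (.inl 3) / 3 - x (.inl 4)]]

/-- The component of `x` in the factor `a`, a traceless `3 × 3` matrix. -/
def mA (x : Ix → F) (a : Fin 3) : Matrix (Fin 3) (Fin 3) F :=
  Matrix.of fun i j => if i = j then dgm x a i else x (.inr (rA a i j))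

/-- The components of `x` in `W` (`b = true`) and `W*` (`b = false`). -/
def wB (x : Ix → F) (b : Bool) (p : T3) : F := x (.inr (.inr (b, p)))

/-- The element with given components (the matrices `m a` are meant to be traceless). -/
def mkT (m : Fin 3 → Matrix (Fin 3) (Fin 3) F) (w : Bool → T3 → F) : Ix → F
  | .inl i => ![m 1 0 0 - m 0 2 2, m 0 1 1 - m 0 2 2, -m 1 2 2 - 2 * m 0 2 2, -3 * m 0 2 2,
      -m 2 2 2 - 2 * m 0 2 2, m 2 0 0 - m 0 2 2] i
  | .inr (.inl (a, i, s)) => m a i (jj i s)
  | .inr (.inr (b, p)) => w b p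

/-- The action of three matrices on tensors. -/
def t3 (g : Fin 3 → Matrix (Fin 3) (Fin 3) F) (w : T3 → F) (p : T3) : F :=
  ∑ q : T3, g 0 p.1 q.1 * g 1 p.2.1 q.2.1 * g 2 p.2.2 q.2.2 * w q

/-- The action of a triple on the `27`-dimensional representation:
`v_a ↦ μ_a • g_a v_a g_(a+1)⁻¹`. -/
def lif (g : Fin 3 → GL (Fin 3) F) : Matrix T3 T3 F :=
  Matrix.of fun ν μ => if ν.1 = μ.1 then
    ![1, ((g 1).1.det)⁻¹, (g 0).1.det] μ.1 * (g μ.1).1 ν.2.1 μ.2.1 *
      ((g (μ.1 + 1))⁻¹).1 μ.2.2 ν.2.2 else 0

/-- The product of the three determinants is `1`. -/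
def Det1 (g : Fin 3 → GL (Fin 3) F) : Prop := (g 0).1.det * (g 1).1.det * (g 2).1.det = 1

/-- The automorphism `[g₀, g₁, g₂]` given by a triple with `Det1`. -/
noncomputable def tri (g : Fin 3 → GL (Fin 3) F) : A0 F :=
  pick fun u => ∀ x, lif g * rho x = rho (ap u x) * lif g

/-- The first factor `sl₃`. -/
def InA0 (x : Ix → F) : Prop := mA x 1 = 0 ∧ mA x 2 = 0 ∧ ∀ b p, wB x b p = 0

end Field

end Pool.Agent.P.MP_3c2f8c_gt.E6
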