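import Pool.Agent.P.MP_3c2f8c_gt.E6.Model

/-! Finite checks on the roots and the weights. -/

namespace Pool.Agent.P.MP_3c2f8c_gt.E6.RootAux

theorem sum_pr : ∀ (i j : Fin 6), ∑ α, pr α (sr i) * pr α (sr j) = 24 * pr (sr j) (sr i) := by
  decide +kernel
theorem decomp : ∀ α : Rt, (∀ i, 0 ≤ rv α i) → (∃ i, α = sr i) ∨
    ∃ β i, (∀ i, 0 ≤ rv β i) ∧ pr β (sr i) = -1 ∧ α = ad2 β (sr i) := by decide +kernel
theorem wp_eq_sum : ∀ (μ : T3) (α : Rt), |wp μ α| ≤ 1 ∧ wp μ α = ∑ i, rv α i * wp μ (sr i) := by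
  decide +kernel
theorem wp_inj : ∀ μ ν : T3, (∀ i, wp μ (sr i) = wp ν (sr i)) → μ = ν := by decide +kernel
theorem wp_act : ∀ (α : Rt) (μ : T3), wp μ α = -1 → (cf α μ = 1 ∨ cf α μ = -1) ∧
    (act (ng α) (act α μ) = μ ∧ cf (ng α) (act α μ) = cf α μ) ∧
    ∀ i, wp (act α μ) (sr i) = wp μ (sr i) + pr α (sr i) := by decide +kernel
theorem sum_wp : ∀ α : Rt, (∃ μ, wp μ α = -1) ∧ ∑ μ, wp μ α = 0 := by decide +kernel
theorem sum_wp_mul : ∀ (i j : Fin 6), ∑ μ, wp μ (sr i) * wp μ (sr j) = 6 * pr (sr j) (sr i) := by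
  decide +kernel
theorem diag : ∀ x3 x1 : Fin 6, pr (sr x3) (sr x1) = -1 → ∀ x2, pr (sr x3) (sr x2) = -1 →
    pr (sr x1) (sr x2) = 0 → ∀ x4, pr (sr x3) (sr x4) = -1 → pr (sr x1) (sr x4) = 0 →
    pr (sr x2) (sr x4) = 0 → ∀ x0, pr (sr x0) (sr x2) = -1 → pr (sr x0) (sr x3) = 0 →
    ∀ x5, pr (sr x5) (sr x4) = -1 → pr (sr x5) (sr x3) = 0 →
      ![x0, x1, x2, x3, x4, x5] = id ∨ ![x0, x1, x2, x3, x4, x5] = ![5, 1, 4, 3, 2, 0] := by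
  decide +kernel

end Pool.Agent.P.MP_3c2f8c_gt.E6.RootAux
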