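import Pool.Agent.P.MP_3c2f8c_gt.E6.Root1
import Pool.Agent.P.MP_3c2f8c_gt.E6.Root2

/-! E6-Root: combinatorics of the roots and of the weights. -/

namespace Pool.Agent.P.MP_3c2f8c_gt.E6

open Matrix

/-- Positive roots. -/
def Pos (α : Rt) : Prop := ∀ i, 0 ≤ rv α i

instance : DecidablePred Pos := fun α => inferInstanceAs (Decidable (∀ i, 0 ≤ rv α i))

/-- The height. -/
def ht (α : Rt) : ℤ := ∑ i, rv α i

theorem card_Rt : Fintype.card Rt = 72 := by simp [Rt, T3]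
theorem card_Ix : Fintype.card Ix = 78 := by simp [Ix, Rt, T3]
theorem pr_comm (α β : Rt) : pr α β = pr β α := RootAux.pr_comm α β
theorem pr_sr (i j : Fin 6) : pr (sr i) (sr j) = CartanMatrix.E₆ i j := by
  revert i j
  decide +kernel
theorem pr_eq_sum (α β : Rt) : pr α β = ∑ i, rv α i * pr β (sr i) := RootAux.pr_eq_sum α β
theorem rv_sr (i : Fin 6) : rv (sr i) = Pi.single i 1 := by
  revert i
  decide +kernel
theorem rv_injective : Function.Injective rv := fun α β h =>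
  (RootAux.pr_two β α).2.1 (by
    rw [pr_eq_sum, ← h, ← pr_eq_sum]
    exact (RootAux.pr_two α α).2.2 rfl)
theorem sr_injective : Function.Injective sr := by decide +kernel
theorem rv_ne_zero (α : Rt) : rv α ≠ 0 := by
  revert α
  decide +kernel
theorem abs_rv_le (α : Rt) (i : Fin 6) : |rv α i| ≤ 3 := by
  revert α i
  decide +kernel
theorem rv_ng (α : Rt) : rv (ng α) = -rv α := by
  revert α
  decide +kernel
theorem ng_ng (α : Rt) : ng (ng α) = α := by
  revert α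
  decide +kernel
theorem ng_ne (α : Rt) : ng α ≠ α := by
  revert α
  decide +kernel
theorem pr_ng (α β : Rt) : pr (ng α) β = -pr α β := by
  rw [pr_eq_sum, pr_eq_sum α, rv_ng, ← Finset.sum_neg_distrib]
  simp only [Pi.neg_apply, neg_mul]
theorem pr_self (α : Rt) : pr α α = 2 := (RootAux.pr_two α α).2.2 rfl
theorem pr_eq_two {α β : Rt} : pr α β = 2 ↔ β = α := (RootAux.pr_two α β).2
theorem pr_eq_neg_two {α β : Rt} : pr α β = -2 ↔ β = ng α := by
  rw [← pr_eq_two, pr_ng, neg_eq_iff_eq_neg]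
theorem abs_pr_le (α β : Rt) : |pr α β| ≤ 2 := (RootAux.pr_two α β).1
theorem rv_ad2 {α β : Rt} (h : pr α β = -1) : rv (ad2 α β) = rv α + rv β :=
  funext (RootAux.rv_ad2 α β h).2
theorem RootAux.pr_add {α β γ : Rt} (h : rv γ = rv α + rv β) (δ : Rt) :
    pr γ δ = pr α δ + pr β δ := by
  rw [pr_eq_sum, pr_eq_sum α, pr_eq_sum β, h, ← Finset.sum_add_distrib]
  simp only [Pi.add_apply, add_mul]
theorem pr_of_add {α β γ : Rt} (h : rv γ = rv α + rv β) : pr α β = -1 ∧ γ = ad2 α β := by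
  have h1 := RootAux.pr_add h γ
  rw [pr_self, pr_comm α, pr_comm β, RootAux.pr_add h, RootAux.pr_add h, pr_self, pr_self,
    pr_comm β] at h1
  have h2 : pr α β = -1 := by omega
  exact ⟨h2, rv_injective (h.trans (rv_ad2 h2).symm)⟩
theorem nN_sq {α β : Rt} (h : pr α β = -1) : nN α β = 1 ∨ nN α β = -1 :=
  (RootAux.rv_ad2 α β h).1
theorem nN_eq_zero {α β : Rt} (h : pr α β ≠ -1) : nN α β = 0 := if_neg h
theorem nN_anti (α β : Rt) : nN α β = -nN β α := (RootAux.nN_anti α β).1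
theorem nN_ng (α β : Rt) : nN (ng α) (ng β) = -nN α β := (RootAux.nN_anti α β).2
theorem rv_rf (α β : Rt) : rv (rf α β) = rv β - pr α β • rv α := by
  have h := abs_le.1 (abs_pr_le α β)
  unfold rf
  split_ifs with h1 h2 h3
  · rw [rv_ad2 h1, h1, neg_one_smul, sub_neg_eq_add, add_comm]
  · rw [rv_ad2 (by rw [pr_ng, h2]), h2, rv_ng, one_smul, neg_add_eq_sub]
  · rw [h3, zero_smul, sub_zero]
  · rcases (by omega : pr α β = 2 ∨ pr α β = -2) with e | e
    · rw [e, pr_eq_two.1 e, rv_ng, two_smul]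
      abel
    · rw [e, pr_eq_neg_two.1 e, ng_ng, rv_ng, neg_smul, two_smul]
      abel
theorem RootAux.pr_rf_left (α β δ : Rt) : pr (rf α β) δ = pr β δ - pr α β * pr α δ := by
  rw [E6.pr_eq_sum, E6.pr_eq_sum β, E6.pr_eq_sum α δ, rv_rf, Finset.mul_sum,
    ← Finset.sum_sub_distrib]
  simp only [Pi.sub_apply, Pi.smul_apply, smul_eq_mul, sub_mul, mul_assoc]
theorem rf_rf (α β : Rt) : rf α (rf α β) = β := rv_injective (by
  rw [rv_rf, rv_rf, pr_comm α (rf α β), RootAux.pr_rf_left, pr_self, pr_comm β α]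
  module)
theorem pr_rf (α β γ : Rt) : pr (rf α β) (rf α γ) = pr β γ := by
  rw [RootAux.pr_rf_left, pr_comm β, pr_comm α (rf α γ), RootAux.pr_rf_left, RootAux.pr_rf_left,
    pr_self, pr_comm γ β, pr_comm γ α]
  ring
theorem swR_swR (α : Rt) : swR (swR α) = α := by
  revert α
  decide +kernel
theorem pr_swR (α β : Rt) : pr (swR α) (swR β) = pr α β := (RootAux.swR α β).1
theorem nN_swR (α β : Rt) : nN (swR α) (swR β) = nN α β := (RootAux.swR α β).2
theorem swR_sr (i : Fin 6) : swR (sr i) = sr (![5, 1, 4, 3, 2, 0] i) := by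
  revert i
  decide +kernel
theorem RootAux.bil {ι : Type} [Fintype ι] (f : ι → Rt → ℤ)
    (h : ∀ μ α, f μ α = ∑ i, rv α i * f μ (sr i)) (c : ℤ)
    (h' : ∀ i j, ∑ μ, f μ (sr i) * f μ (sr j) = c * pr (sr j) (sr i)) (α β : Rt) :
    ∑ μ, f μ α * f μ β = c * pr α β := by
  have k : ∀ β γ, (∀ i, ∑ μ, f μ (sr i) * f μ γ = c * pr γ (sr i)) →
      ∑ μ, f μ γ * f μ β = c * pr β γ := fun β γ e => by
    rw [E6.pr_eq_sum, Finset.mul_sum]
    simp only [fun μ => h μ β, Finset.mul_sum]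
    rw [Finset.sum_comm]
    refine Finset.sum_congr rfl fun i _ => ?_
    rw [mul_left_comm, ← e, Finset.mul_sum]
    exact Finset.sum_congr rfl fun μ _ => by ring
  rw [E6.pr_comm]
  exact k β α fun i => k α (sr i) fun j => h' j i
theorem sum_pr_mul (β γ : Rt) : ∑ α, pr α β * pr α γ = 24 * pr β γ :=
  RootAux.bil (fun α => pr α) (fun α β => by rw [pr_comm, pr_eq_sum]) 24 RootAux.sum_pr β γ
theorem det_cartan : (CartanMatrix.E₆).det = 3 := CartanMatrix.E₆_det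

theorem pos_or (α : Rt) : Pos α ∨ Pos (ng α) := by
  revert α
  decide +kernel
theorem pos_ng {α : Rt} : Pos (ng α) ↔ ¬ Pos α := by
  revert α
  decide +kernel
theorem pos_sr (i : Fin 6) : Pos (sr i) := by
  revert i
  decide +kernel
theorem pos_swR (α : Rt) : Pos (swR α) ↔ Pos α := by
  revert α
  decide +kernel
theorem pos_rf {α : Rt} {i : Fin 6} (h : Pos α) (h' : α ≠ sr i) : Pos (rf (sr i) α) := by
  revert α i
  decide +kernel
theorem pos_decomp {α : Rt} (h : Pos α) : (∃ i, α = sr i) ∨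
    ∃ β i, Pos β ∧ pr β (sr i) = -1 ∧ α = ad2 β (sr i) := RootAux.decomp α h
theorem abs_ht_le (α : Rt) : |ht α| ≤ 11 := by
  revert α
  decide +kernel
theorem card_pos : (Finset.univ.filter Pos).card = 36 := by decide +kernel

theorem RootAux.ht_sr (i : Fin 6) : ht (sr i) = 1 := by
  revert i
  decide +kernel

theorem RootAux.ht_pos (α : Rt) : Pos α → 1 ≤ ht α := by
  revert α
  decide +kernel

theorem RootAux.ht_ad2 {α β : Rt} (h : pr α β = -1) : ht (ad2 α β) = ht α + ht β := by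
  simp only [ht, E6.rv_ad2 h, Pi.add_apply, Finset.sum_add_distrib]

theorem RootAux.ind_pos {P : Rt → Prop} (hs : ∀ i, P (sr i))
    (ha : ∀ β i, Pos β → pr β (sr i) = -1 → P β → P (ad2 β (sr i))) (α : Rt) (h : Pos α) : P α := by
  induction hn : (ht α).toNat using Nat.strong_induction_on generalizing α with
  | _ n ih =>
  rcases pos_decomp h with ⟨i, rfl⟩ | ⟨β, i, hβ, e, rfl⟩
  · exact hs i
  · refine ha β i hβ e (ih _ ?_ β hβ rfl)
    have h1 := RootAux.ht_ad2 e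
    have h2 := RootAux.ht_pos β hβ
    rw [RootAux.ht_sr] at h1
    omega

theorem RootAux.ind {P : Rt → Prop} (hs : ∀ i, P (sr i)) (hn : ∀ α, P α → P (ng α))
    (ha : ∀ β i, Pos β → pr β (sr i) = -1 → P β → P (sr i) → P (ad2 β (sr i))) (α : Rt) : P α := by
  have k := RootAux.ind_pos hs fun β i h h' h'' => ha β i h h' h'' (hs i)
  rcases pos_or α with h | h
  · exact k α h
  · exact ng_ng α ▸ hn _ (k _ h)

theorem RootAux.ra_ng (π : RA) (α : Rt) : π.1 (ng α) = ng (π.1 α) :=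
  pr_eq_neg_two.1 ((π.2 _ _).trans (pr_eq_neg_two.2 rfl))

theorem RootAux.ra_ad2 (π : RA) {α β : Rt} (h : pr α β = -1) :
    π.1 (ad2 α β) = ad2 (π.1 α) (π.1 β) := pr_eq_two.1 (by
  rw [RootAux.pr_add (E6.rv_ad2 ((π.2 _ _).trans h)), π.2, π.2, ← RootAux.pr_add (E6.rv_ad2 h),
    pr_self])

/-- The reflection as an isometry. -/
def rfA (α : Rt) : RA :=
  ⟨Function.Involutive.toPerm (rf α) (rf_rf α), fun β γ => pr_rf α β γ⟩

/-- Minus the identity. -/
def ngA : RA := ⟨Function.Involutive.toPerm ng ng_ng, fun α β => by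
  show pr (ng α) (ng β) = pr α β
  rw [pr_ng, pr_comm, pr_ng, neg_neg, pr_comm]⟩

/-- The diagram automorphism. -/
def swA : RA := ⟨Function.Involutive.toPerm swR swR_swR, fun α β => pr_swR α β⟩

/-- The Weyl group. -/
def WG : Subgroup RA := Subgroup.closure (Set.range fun i => rfA (sr i))

theorem lw_rv (π : RA) (α : Rt) : lw π.1 (rv α) = rv (π.1 α) := by
  induction α using RootAux.ind with
  | hs i => simp [lw, rv_sr, Pi.single_apply]
  | hn α ih => rw [RootAux.ra_ng, rv_ng, rv_ng, map_neg, ih]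
  | ha β i _ h ih h' =>
    rw [RootAux.ra_ad2 π h, rv_ad2 h, rv_ad2 ((π.2 _ _).trans h), map_add, ih, h']
theorem RootAux.ra_ext {π π' : RA} (h : ∀ i, π.1 (sr i) = π'.1 (sr i)) : π = π' :=
  Subtype.ext (Equiv.ext fun α => rv_injective (by
    rw [← lw_rv, ← lw_rv]
    simp only [lw, AddMonoidHom.coe_mk, ZeroHom.coe_mk, h]))
theorem RootAux.ra_rf (π : RA) (α β : Rt) : π.1 (rf α β) = rf (π.1 α) (π.1 β) :=
  rv_injective (by rw [← lw_rv, rv_rf, rv_rf, map_sub, map_zsmul, lw_rv, lw_rv, π.2])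
theorem lw_one (q : QL) : lw (1 : RA).1 q = q := by
  funext j
  simp [lw, rv_sr, Pi.single_apply]
theorem lw_mul (π π' : RA) (q : QL) : lw (π * π').1 q = lw π.1 (lw π'.1 q) := by
  change ∑ i, q i • rv (π.1 (π'.1 (sr i))) = lw π.1 (∑ i, q i • rv (π'.1 (sr i)))
  simp only [map_sum, map_zsmul, lw_rv]
theorem RA_ng (π : RA) (α : Rt) : π.1 (ng α) = ng (π.1 α) := RootAux.ra_ng π α
theorem RA_ad2 (π : RA) {α β : Rt} (h : pr α β = -1) :
    π.1 (ad2 α β) = ad2 (π.1 α) (π.1 β) := RootAux.ra_ad2 π h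

/-- A closed set of roots that contains exactly one of each pair `± α` is a positive system. -/
theorem exists_WG_of_closed (Ψ : Set Rt) (h1 : ∀ α, α ∈ Ψ ↔ ng α ∉ Ψ)
    (h2 : ∀ α ∈ Ψ, ∀ β ∈ Ψ, pr α β = -1 → ad2 α β ∈ Ψ) :
    ∃ π ∈ WG, ∀ α, π.1 α ∈ Ψ ↔ Pos α := by
  classical
  induction hn : (Finset.univ.filter fun α => Pos α ∧ α ∉ Ψ).card using Nat.strong_induction_on
    generalizing Ψ with
  | _ n ih =>
  by_cases hs : ∀ i, sr i ∈ Ψ
  · have k : ∀ α, Pos α → α ∈ Ψ :=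
      RootAux.ind_pos hs fun β i _ h hβ => h2 β hβ _ (hs i) h
    refine ⟨1, one_mem _, fun α => ⟨fun h => ?_, k α⟩⟩
    by_contra c
    exact (h1 α).1 h (k _ (pos_ng.2 c))
  · obtain ⟨i, hi⟩ := not_forall.1 hs
    have e : rf (sr i) (sr i) = ng (sr i) := by simp [rf, pr_self]
    have e1 : ∀ α, rf (sr i) (ng α) = ng (rf (sr i) α) := RA_ng (rfA (sr i))
    have e2 : ∀ α β, pr α β = -1 → rf (sr i) (ad2 α β) = ad2 (rf (sr i) α) (rf (sr i) β) :=
      fun _ _ => RA_ad2 (rfA (sr i))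
    have hlt : (Finset.univ.filter fun α => Pos α ∧ α ∉ rf (sr i) ⁻¹' Ψ).card < n := by
      rw [← hn]
      have hm : sr i ∈ Finset.univ.filter fun α => Pos α ∧ α ∉ Ψ := by simp [pos_sr, hi]
      refine lt_of_le_of_lt (Finset.card_le_card_of_injOn (rf (sr i)) (fun α hα => ?_)
        (Function.Involutive.injective (rf_rf _)).injOn) (Finset.card_erase_lt_of_mem hm)
      have hα' : Pos α ∧ rf (sr i) α ∉ Ψ := (Finset.mem_filter.1 hα).2
      refine Finset.mem_erase.2 ⟨fun c => ?_,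
        Finset.mem_filter.2 ⟨Finset.mem_univ _, pos_rf hα'.1 ?_, hα'.2⟩⟩
      · have := hα'.1
        rw [← rf_rf (sr i) α, c, e] at this
        exact pos_ng.1 this (pos_sr i)
      · rintro rfl
        exact hi ((h1 _).2 (e ▸ hα'.2))
    obtain ⟨π, hπ, k⟩ := ih _ hlt (rf (sr i) ⁻¹' Ψ)
      (fun α => by rw [Set.mem_preimage, Set.mem_preimage, e1, h1])
      (fun α hα β hβ h => by
        rw [Set.mem_preimage, e2 _ _ h]
        exact h2 _ hα _ hβ ((pr_rf _ _ _).trans h)) rfl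
    exact ⟨rfA (sr i) * π, mul_mem (Subgroup.subset_closure ⟨i, rfl⟩) hπ, k⟩

theorem RA_of_pos (π : RA) (h : ∀ α, Pos α → Pos (π.1 α)) : π = 1 ∨ π = swA := by
  have h' : ∀ α, Pos α → Pos ((π⁻¹ : RA).1 α) := fun α hα => by
    by_contra c
    have := h _ (pos_ng.2 c)
    rw [RA_ng, ← Equiv.Perm.mul_apply, ← Subgroup.coe_mul, mul_inv_cancel] at this
    exact pos_ng.1 this hα
  have k : ∀ i, ∃ j, π.1 (sr i) = sr j := fun i => by
    refine (pos_decomp (h _ (pos_sr i))).resolve_right ?_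
    rintro ⟨β, j, hβ, e, e'⟩
    have e1 := RA_ad2 π⁻¹ e
    rw [← e', ← Equiv.Perm.mul_apply, ← Subgroup.coe_mul, inv_mul_cancel] at e1
    have e2 := RootAux.ht_ad2 (((π⁻¹ : RA).2 _ _).trans e)
    have e3 := RootAux.ht_pos _ (h' _ hβ)
    have e4 := RootAux.ht_pos _ (h' _ (pos_sr j))
    rw [← e1] at e2
    have e5 : ht (((1 : RA) : Equiv.Perm Rt) (sr i)) = 1 := RootAux.ht_sr i
    omega
  choose f hf using k
  have c : ∀ i j, pr (sr (f i)) (sr (f j)) = pr (sr i) (sr j) := fun i j => by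
    rw [← hf, ← hf, π.2]
  have e : ![f 0, f 1, f 2, f 3, f 4, f 5] = f := by
    funext i
    fin_cases i <;> rfl
  have d := RootAux.diag (f 3) (f 1) (by rw [c]; rfl) (f 2) (by rw [c]; rfl) (by rw [c]; rfl) (f 4)
    (by rw [c]; rfl) (by rw [c]; rfl) (by rw [c]; rfl) (f 0) (by rw [c]; rfl) (by rw [c]; rfl) (f 5)
    (by rw [c]; rfl) (by rw [c]; rfl)
  rw [e] at d
  refine d.imp (fun d => RootAux.ra_ext fun i => ?_) fun d => RootAux.ra_ext fun i => ?_
  · rw [hf, d]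
    rfl
  · rw [hf, d]
    exact (swR_sr i).symm

theorem RA_cases (π : RA) : π ∈ WG ∨ π * swA ∈ WG := by
  obtain ⟨w, hw, k⟩ := exists_WG_of_closed {α | Pos ((π⁻¹ : RA).1 α)}
    (fun α => by simp only [Set.mem_ofPred_eq, RA_ng, pos_ng, not_not])
    (fun α hα β hβ h i => by
      rw [RA_ad2 _ h, rv_ad2 (((π⁻¹ : RA).2 _ _).trans h)]
      exact add_nonneg (hα i) (hβ i))
  refine (RA_of_pos (π⁻¹ * w) fun α hα => (k α).2 hα).imp (fun e => ?_) fun e => ?_
  · rwa [← inv_mul_eq_one.1 e] at hw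
  · rwa [← e, mul_inv_cancel_left]

theorem rfA_mem_WG (α : Rt) : rfA α ∈ WG := by
  induction α using RootAux.ind with
  | hs i => exact Subgroup.subset_closure ⟨i, rfl⟩
  | hn α ih =>
    have : rfA (ng α) = rfA α := RootAux.ra_ext fun i => rv_injective (by
      change rv (rf _ _) = rv (rf _ _)
      rw [rv_rf, rv_rf, pr_ng, rv_ng, neg_smul_neg])
    rwa [this]
  | ha β i _ h ih h' =>
    have e : ad2 β (sr i) = (rfA (sr i)).1 β := rv_injective (by
      change _ = rv (rf _ _)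
      rw [rv_rf, rv_ad2 h, pr_comm, h, neg_one_smul, sub_neg_eq_add])
    have : rfA (ad2 β (sr i)) * rfA (sr i) = rfA (sr i) * rfA β :=
      RootAux.ra_ext fun j => by rw [e]; exact (RootAux.ra_rf (rfA (sr i)) β (sr j)).symm
    rw [eq_mul_inv_of_mul_eq this]
    exact mul_mem (mul_mem h' ih) (inv_mem h')

section Torus

variable {B : Type} [CommGroup B]

theorem RootAux.tor_prod (t : TorB B) (q : QL) :
    t (Multiplicative.ofAdd q) = ∏ i, rt t (sr i) ^ q i := by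
  have e : q = ∑ i, q i • rv (sr i) := (lw_one q).symm
  rw [congrArg (fun q => t (Multiplicative.ofAdd q)) e]
  simp only [ofAdd_sum, map_prod, ofAdd_zsmul, map_zpow, rt]

theorem tor_ext {t t' : TorB B} (h : ∀ i, rt t (sr i) = rt t' (sr i)) : t = t' := by
  refine MonoidHom.ext fun q => ?_
  rw [← ofAdd_toAdd q, RootAux.tor_prod, RootAux.tor_prod]
  simp only [h]
theorem exists_tor (c : Fin 6 → B) : ∃ t : TorB B, ∀ i, rt t (sr i) = c i :=
  ⟨⟨⟨fun q => ∏ i, c i ^ q.toAdd i, by simp⟩, fun q q' => by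
    simp [_root_.zpow_add, Finset.prod_mul_distrib]⟩, fun i => by
      simp [rt, rv_sr, Pi.single_apply]⟩
theorem rt_eq_prod (t : TorB B) (α : Rt) : rt t α = ∏ i, rt t (sr i) ^ rv α i :=
  RootAux.tor_prod t _
theorem rt_ng (t : TorB B) (α : Rt) : rt t (ng α) = (rt t α)⁻¹ := by
  rw [rt, rv_ng, ofAdd_neg, map_inv, rt]
theorem rt_ad2 (t : TorB B) {α β : Rt} (h : pr α β = -1) :
    rt t (ad2 α β) = rt t α * rt t β := by
  rw [rt, rv_ad2 h, ofAdd_add, map_mul, rt, rt]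
theorem exists_tor_of_mul (c : Rt → B) (h1 : ∀ α, c (ng α) = (c α)⁻¹)
    (h2 : ∀ α β, pr α β = -1 → c (ad2 α β) = c α * c β) : ∃ t : TorB B, ∀ α, rt t α = c α := by
  obtain ⟨t, ht⟩ := exists_tor fun i => c (sr i)
  refine ⟨t, fun α => ?_⟩
  induction α using RootAux.ind with
  | hs i => exact ht i
  | hn α ih => rw [rt_ng, ih, h1]
  | ha β i _ h ih h' => rw [rt_ad2 t h, h2 _ _ h, ih, h']
theorem rt_tw (π : RA) (t : TorB B) (α : Rt) : rt (tw π t) (π.1 α) = rt t α := by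
  change t (Multiplicative.ofAdd (lw (π⁻¹ : RA).1 (rv (π.1 α)))) = _
  rw [lw_rv, ← Equiv.Perm.mul_apply, ← Subgroup.coe_mul, inv_mul_cancel]
  rfl
theorem tw_one (t : TorB B) : tw 1 t = t := tor_ext fun i => rt_tw 1 t (sr i)
theorem tw_mul (π π' : RA) (t : TorB B) : tw (π * π') t = tw π (tw π' t) := by
  refine MonoidHom.ext fun q => ?_
  change t (Multiplicative.ofAdd (lw ((π * π')⁻¹ : RA).1 q.toAdd)) = _
  rw [_root_.mul_inv_rev, lw_mul]
  rfl
theorem tw_ngA (t : TorB B) : tw ngA t = t⁻¹ := tor_ext fun i => by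
  have h := rt_tw ngA t (ng (sr i))
  rw [rt_ng] at h
  rw [← ng_ng (sr i)]
  exact h.trans (by rw [ng_ng]; rfl)

end Torus

theorem wp_eq_sum (μ : T3) (α : Rt) : wp μ α = ∑ i, rv α i * wp μ (sr i) :=
  (RootAux.wp_eq_sum μ α).2
theorem abs_wp_le (μ : T3) (α : Rt) : |wp μ α| ≤ 1 := (RootAux.wp_eq_sum μ α).1
theorem wp_ng (μ : T3) (α : Rt) : wp μ (ng α) = -wp μ α := by
  rw [wp_eq_sum, wp_eq_sum μ α, rv_ng, ← Finset.sum_neg_distrib]
  simp only [Pi.neg_apply, neg_mul]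
theorem wp_injective {μ ν : T3} (h : ∀ i, wp μ (sr i) = wp ν (sr i)) : μ = ν :=
  RootAux.wp_inj μ ν h
theorem wp_act {α : Rt} {μ : T3} (h : wp μ α = -1) (β : Rt) :
    wp (act α μ) β = wp μ β + pr α β := by
  rw [wp_eq_sum, wp_eq_sum μ β, pr_comm, pr_eq_sum, ← Finset.sum_add_distrib]
  simp only [(RootAux.wp_act α μ h).2.2, mul_add]
theorem cf_sq {α : Rt} {μ : T3} (h : wp μ α = -1) : cf α μ = 1 ∨ cf α μ = -1 :=
  (RootAux.wp_act α μ h).1
theorem cf_eq_zero {α : Rt} {μ : T3} (h : wp μ α ≠ -1) : cf α μ = 0 := if_neg h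
theorem act_ng {α : Rt} {μ : T3} (h : wp μ α = -1) :
    act (ng α) (act α μ) = μ ∧ cf (ng α) (act α μ) = cf α μ := (RootAux.wp_act α μ h).2.1
theorem exists_wp (α : Rt) : ∃ μ, wp μ α = -1 := (RootAux.sum_wp α).1
theorem sum_wp (α : Rt) : ∑ μ, wp μ α = 0 := (RootAux.sum_wp α).2
theorem sum_wp_mul (α β : Rt) : ∑ μ, wp μ α * wp μ β = 6 * pr α β :=
  RootAux.bil wp wp_eq_sum 6 RootAux.sum_wp_mul α β

end Pool.Agent.P.MP_3c2f8c_gt.E6
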