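import Pool.Agent.P.MP_3c2f8c_gt.E6.Model

/-! Finite checks on the roots. -/

namespace Pool.Agent.P.MP_3c2f8c_gt.E6.RootAux

theorem pr_comm : ∀ α β : Rt, pr α β = pr β α := by decide +kernel
theorem pr_eq_sum : ∀ α β : Rt, pr α β = ∑ i, rv α i * pr β (sr i) := by decide +kernel
theorem pr_two : ∀ α β : Rt, |pr α β| ≤ 2 ∧ (pr α β = 2 ↔ β = α) := by decide +kernel
theorem rv_ad2 : ∀ α β : Rt, pr α β = -1 →
    (nN α β = 1 ∨ nN α β = -1) ∧ ∀ i, rv (ad2 α β) i = rv α i + rv β i := by decide +kernel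
theorem nN_anti : ∀ α β : Rt, nN α β = -nN β α ∧ nN (ng α) (ng β) = -nN α β := by decide +kernel
theorem swR : ∀ α β : Rt, pr (swR α) (swR β) = pr α β ∧ nN (swR α) (swR β) = nN α β := by
  decide +kernel

end Pool.Agent.P.MP_3c2f8c_gt.E6.RootAux
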